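import Mathlib

/-!
Definitions for the reconstruction of graphs in which the deletion of a recognisable set of
vertices leaves many components (MP_552896_co). Everything lives on one finite vertex type `V`;
`A : Finset V` is the separator, the graphs `K`, `L`, `G`, `H` vary.
-/

set_option autoImplicit false

namespace Pool.Agent.Sep

open Finset Classical

universe u

variable {V : Type u} [Fintype V]

/-- The permutation `σ` maps the adjacency of `K` inside `X` to the adjacency of `L`. -/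
def Agree (σ : Equiv.Perm V) (K L : SimpleGraph V) (X : Finset V) : Prop :=
  ∀ x ∈ X, ∀ y ∈ X, (K.Adj x y ↔ L.Adj (σ x) (σ y))

/-- The image of a finset under a permutation. -/
def im (σ : Equiv.Perm V) (X : Finset V) : Finset V := X.map σ.toEmbedding

omit [Fintype V] in
lemma mem_im {σ : Equiv.Perm V} {X : Finset V} {x : V} : x ∈ im σ X ↔ ∃ y ∈ X, σ y = x := by
  simp only [im, mem_map, Equiv.coe_toEmbedding]

omit [Fintype V] in
lemma apply_mem_im {σ : Equiv.Perm V} {X : Finset V} {x : V} : σ x ∈ im σ X ↔ x ∈ X := by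
  rw [mem_im]
  exact ⟨fun ⟨y, hy, h⟩ => σ.injective h ▸ hy, fun h => ⟨x, h, rfl⟩⟩

omit [Fintype V] in
lemma im_one (X : Finset V) : im (1 : Equiv.Perm V) X = X := by
  ext x; rw [mem_im]; simp

omit [Fintype V] in
lemma im_mul (σ τ : Equiv.Perm V) (X : Finset V) : im (σ * τ) X = im σ (im τ X) := by
  ext x
  simp only [mem_im, Equiv.Perm.mul_apply]
  constructor
  · rintro ⟨a, ha, rfl⟩; exact ⟨τ a, ⟨a, ha, rfl⟩, rfl⟩
  · rintro ⟨_, ⟨a, ha, rfl⟩, rfl⟩; exact ⟨a, ha, rfl⟩

omit [Fintype V] in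
lemma im_inv_im (σ : Equiv.Perm V) (X : Finset V) : im σ⁻¹ (im σ X) = X := by
  rw [← im_mul, inv_mul_cancel, im_one]

omit [Fintype V] in
lemma im_im_inv (σ : Equiv.Perm V) (X : Finset V) : im σ (im σ⁻¹ X) = X := by
  rw [← im_mul, mul_inv_cancel, im_one]

omit [Fintype V] in
lemma mem_im_iff_inv {σ : Equiv.Perm V} {X : Finset V} {x : V} : x ∈ im σ X ↔ σ⁻¹ x ∈ X := by
  rw [mem_im]
  constructor
  · rintro ⟨y, hy, rfl⟩; simpa using hy
  · intro h; exact ⟨_, h, by simp⟩

omit [Fintype V] in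
lemma card_im (σ : Equiv.Perm V) (X : Finset V) : (im σ X).card = X.card := card_map _

omit [Fintype V] in
lemma im_union (σ : Equiv.Perm V) (X Y : Finset V) : im σ (X ∪ Y) = im σ X ∪ im σ Y :=
  map_union X Y

omit [Fintype V] in
lemma im_injective (σ : Equiv.Perm V) : Function.Injective (im σ) := by
  intro X Y h
  rw [← im_inv_im σ X, h, im_inv_im]

omit [Fintype V] in
lemma im_compl [Fintype V] (σ : Equiv.Perm V) (X : Finset V) : im σ Xᶜ = (im σ X)ᶜ := by
  ext x
  rw [mem_im_iff_inv, mem_compl, mem_compl, mem_im_iff_inv]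

omit [Fintype V] in
lemma Agree.mono {σ : Equiv.Perm V} {K L : SimpleGraph V} {X Y : Finset V} (h : Agree σ K L Y)
    (hXY : X ⊆ Y) : Agree σ K L X :=
  fun x hx y hy => h x (hXY hx) y (hXY hy)

omit [Fintype V] in
lemma Agree.inv {σ : Equiv.Perm V} {K L : SimpleGraph V} {X : Finset V} (h : Agree σ K L X) :
    Agree σ⁻¹ L K (im σ X) := by
  intro x hx y hy
  rw [mem_im_iff_inv] at hx hy
  rw [h _ hx _ hy]
  simp

omit [Fintype V] in
lemma Agree.mul {σ τ : Equiv.Perm V} {K L M : SimpleGraph V} {X : Finset V} (h : Agree τ K L X)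
    (h' : Agree σ L M (im τ X)) : Agree (σ * τ) K M X := by
  intro x hx y hy
  rw [h x hx y hy, h' _ (apply_mem_im.mpr hx) _ (apply_mem_im.mpr hy)]
  rfl

/-- The graph `K` with only the edges inside `Y` kept. -/
def res (K : SimpleGraph V) (Y : Finset V) : SimpleGraph V where
  Adj x y := K.Adj x y ∧ x ∈ Y ∧ y ∈ Y
  symm := ⟨fun _ _ h => ⟨h.1.symm, h.2.2, h.2.1⟩⟩
  loopless := ⟨fun _ h => K.loopless.irrefl _ h.1⟩

/-- The vertex set of the component of `v` in the subgraph of `K` induced by `Y`. -/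
noncomputable def comp (K : SimpleGraph V) (Y : Finset V) (v : V) : Finset V :=
  Y.filter (fun u => (res K Y).Reachable v u)

/-- The vertex sets of the components of the subgraph of `K` induced by `Y`. -/
noncomputable def comps (K : SimpleGraph V) (Y : Finset V) : Finset (Finset V) :=
  Y.image (comp K Y)

/-- No `K`-edge joins `Y` to a vertex outside `A ∪ Y`. -/
def Closed (K : SimpleGraph V) (A Y : Finset V) : Prop :=
  ∀ u ∈ Y, ∀ v, v ∉ A → K.Adj u v → v ∈ Y

omit [Fintype V] in
lemma im_eq_self_of_fix {ρ : Equiv.Perm V} {A : Finset V} (h : ∀ a ∈ A, ρ a = a) :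
    im ρ A = A := by
  ext x
  rw [mem_im]
  constructor
  · rintro ⟨y, hy, rfl⟩; rwa [h y hy]
  · intro hx; exact ⟨x, hx, h x hx⟩

/-- Two pairs (graph, finset) are equivalent over `A` if some permutation fixing every element
of `A` maps the subgraph induced by `A ∪ D` to the subgraph induced by `A ∪ E`, and `D` to `E`. -/
def tySetoid (A : Finset V) : Setoid (SimpleGraph V × Finset V) where
  r p q := ∃ ρ : Equiv.Perm V, (∀ a ∈ A, ρ a = a) ∧ im ρ p.2 = q.2 ∧
    Agree ρ p.1 q.1 (A ∪ p.2)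
  iseqv := {
    refl := fun p => ⟨1, fun a _ => rfl, im_one _, fun x _ y _ => Iff.rfl⟩
    symm := by
      rintro ⟨K, D⟩ ⟨L, E⟩ ⟨ρ, h1, h2, h3⟩
      dsimp only at h2 h3
      subst h2
      refine ⟨ρ⁻¹, fun a ha => ?_, im_inv_im _ _, ?_⟩
      · rw [Equiv.Perm.inv_eq_iff_eq, h1 a ha]
      · have := h3.inv
        rwa [im_union, im_eq_self_of_fix h1] at this
    trans := by
      rintro ⟨K, D⟩ ⟨L, E⟩ ⟨M, F⟩ ⟨ρ, h1, h2, h3⟩ ⟨τ, h4, h5, h6⟩
      dsimp only at h2 h3 h5 h6
      subst h2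
      subst h5
      refine ⟨τ * ρ, fun a ha => ?_, im_mul _ _ _, h3.mul ?_⟩
      · rw [Equiv.Perm.mul_apply, h1 a ha, h4 a ha]
      · rwa [im_union, im_eq_self_of_fix h1] }

/-- The types over `A`. -/
abbrev Ty (A : Finset V) : Type u := Quotient (tySetoid A)

/-- The type over `A` of the set `D` in the graph `K`. -/
def ty (A : Finset V) (K : SimpleGraph V) (D : Finset V) : Ty A :=
  Quotient.mk (tySetoid A) (K, D)

noncomputable instance (A : Finset V) : Fintype (Ty A) := Fintype.ofFinite _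

/-- The number of components of `K[Y]` of each type. -/
noncomputable def xv (A : Finset V) (K : SimpleGraph V) (Y : Finset V) (τ : Ty A) : ℕ :=
  ((comps K Y).filter (fun D => ty A K D = τ)).card

/-- The isomorphisms `G[A] → K[A]`, extended by the identity outside `A`. -/
noncomputable def II (A : Finset V) (G K : SimpleGraph V) : Finset (Equiv.Perm V) :=
  univ.filter (fun π => (∀ v, v ∉ A → π v = v) ∧
    ∀ x ∈ A, ∀ y ∈ A, (K.Adj (π x) (π y) ↔ G.Adj x y))

/-- An invariant of the pairs `(K[A ∪ X], A)`. -/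
def Inv (A : Finset V) (g : SimpleGraph V → Finset V → ℚ) : Prop :=
  ∀ (K L : SimpleGraph V) (σ : Equiv.Perm V) (X : Finset V), Disjoint A X → im σ A = A →
    Agree σ K L (A ∪ X) → g K X = g L (im σ X)

/-- For every vertex `w` outside `A` there is an isomorphism `G - w → H - w` mapping `A` to
`A`. -/
def Hypo (A : Finset V) (G H : SimpleGraph V) : Prop :=
  ∀ w, w ∉ A → ∃ σ : Equiv.Perm V, σ w = w ∧ im σ A = A ∧ Agree σ G H (univ.erase w)

end Pool.Agent.Sep
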