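import Mathlib
import Pool.Agent.Sep.Defs

/-!
SEP-8: the abstract lemma (MP_552896_co). Blueprint of helper17, formalised by helper92.
-/

set_option autoImplicit false

namespace Pool.Agent.Sep

open Finset Classical

universe u

lemma abs_max_le {T : Type u} (m : T → ℕ) (S : Finset T)
    (h2 : ∀ σ ∈ S, 2 ≤ m σ → ∃ τ ∈ S, m τ + 1 = m σ) (σ : T) (hσ : σ ∈ S) : m σ ≤ S.card := by
  have h : ∀ d : ℕ, d < m σ → m σ - d ∈ S.image m := by
    intro d
    induction d with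
    | zero => intro _; simpa using ⟨σ, hσ, rfl⟩
    | succ d ih =>
      intro hd
      obtain ⟨ρ, hρ, he⟩ := mem_image.1 (ih (by omega))
      obtain ⟨τ, hτ, ht⟩ := h2 ρ hρ (by omega)
      exact mem_image.2 ⟨τ, hτ, by omega⟩
  have h3 : Icc 1 (m σ) ⊆ S.image m := by
    intro k hk
    obtain ⟨h4, h5⟩ := mem_Icc.1 hk
    have := h (m σ - k) (by omega)
    rwa [show m σ - (m σ - k) = k by omega] at this
  calc m σ = (Icc 1 (m σ)).card := by simp
    _ ≤ (S.image m).card := card_le_card h3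
    _ ≤ S.card := card_image_le

lemma abs_ladder {T : Type u} (m : T → ℕ) : ∀ (n : ℕ) (S : Finset T), S.card = n →
    (∀ σ ∈ S, 2 ≤ m σ → ∃ τ ∈ S, m τ + 1 = m σ) → 2 * ∑ τ ∈ S, m τ ≤ n * (n + 1) := by
  intro n
  induction n with
  | zero =>
    intro S hS _
    rw [card_eq_zero.1 hS]
    simp
  | succ n ih =>
    intro S hS h2
    obtain ⟨σ, hσ, hmax⟩ := S.exists_max_image m (card_pos.1 (by omega))
    have h3 := abs_max_le m S h2 σ hσ
    have h4 := ih (S.erase σ) (by rw [card_erase_of_mem hσ]; omega) (by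
      intro ρ hρ hρ2
      obtain ⟨τ, hτ, ht⟩ := h2 ρ (mem_of_mem_erase hρ) hρ2
      refine ⟨τ, mem_erase.2 ⟨?_, hτ⟩, ht⟩
      rintro rfl
      have := hmax ρ (mem_of_mem_erase hρ)
      omega)
    rw [← add_sum_erase S m hσ, mul_add]
    have h5 : m σ ≤ n + 1 := by omega
    nlinarith

lemma abs_fac (k : ℕ) : |(k : ℚ) - 2 / 3| ≤ 2 / 3 * (k.factorial : ℚ) := by
  rcases k with _ | _ | _ | k
  · norm_num
  · norm_num
  · norm_num [Nat.factorial]
  · have h1 : (2 : ℚ) * ((k + 3 : ℕ) : ℚ) ≤ ((k + 3).factorial : ℚ) := by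
      have h2 : 2 * (k + 3) ≤ (k + 3).factorial := by
        rw [Nat.factorial_succ, mul_comm]
        exact Nat.mul_le_mul_left _ ((Nat.factorial_le (show 2 ≤ k + 2 by omega)))
      exact_mod_cast h2
    rw [abs_of_nonneg (by push_cast; linarith [(Nat.cast_nonneg k : (0 : ℚ) ≤ k)])]
    push_cast at h1 ⊢
    linarith [(Nat.cast_nonneg k : (0 : ℚ) ≤ k)]

lemma abs_factor (y m : ℕ) (hm : 1 ≤ m) :
    |-(2 / 3) / (m : ℚ) * (y.choose (m - 1) : ℚ) + (y.choose m : ℚ)| ≤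
      2 / 3 * ((y.factorial : ℚ) / m.factorial) := by
  obtain ⟨m, rfl⟩ : ∃ m', m = m' + 1 := ⟨m - 1, by omega⟩
  simp only [Nat.add_sub_cancel]
  by_cases hy : y < m
  · rw [Nat.choose_eq_zero_of_lt hy, Nat.choose_eq_zero_of_lt (by omega)]
    simp only [Nat.cast_zero, mul_zero, add_zero, abs_zero]
    positivity
  · obtain ⟨k, rfl⟩ := Nat.exists_eq_add_of_le (not_lt.1 hy)
    have hf : ((m + k).factorial : ℚ) = (m + k).choose m * (m.factorial * k.factorial) := by
      have := Nat.add_choose_mul_factorial_mul_factorial m k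
      rw [← this]
      push_cast
      rw [← mul_assoc]
      congr 2
      rw [Nat.choose_symm_add]
    have h1 : ((m + k).choose (m + 1) : ℚ) = (m + k).choose m * k / (m + 1) := by
      have := Nat.choose_succ_right_eq (m + k) m
      rw [Nat.add_sub_cancel_left] at this
      rw [eq_div_iff (by positivity)]
      exact_mod_cast this
    have h2 : -(2 / 3) / ((m + 1 : ℕ) : ℚ) * ((m + k).choose m : ℚ) + ((m + k).choose (m + 1) : ℚ) =
        ((m + k).choose m : ℚ) / (m + 1) * (k - 2 / 3) := by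
      rw [h1]
      push_cast
      field_simp
      ring
    have h3 : ((m + k).factorial : ℚ) / ((m + 1).factorial : ℚ) =
        ((m + k).choose m : ℚ) / (m + 1) * k.factorial := by
      rw [hf, Nat.factorial_succ]
      have : (m.factorial : ℚ) ≠ 0 := by positivity
      push_cast
      field_simp
    rw [h2, h3, abs_mul, abs_of_nonneg (by positivity)]
    have := mul_le_mul_of_nonneg_left (abs_fac k)
      (show (0 : ℚ) ≤ ((m + k).choose m : ℚ) / (m + 1) by positivity)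
    linarith

lemma abs_choose_prod {T : Type u} [Fintype T] (y m : T → ℕ) (hs : ∑ τ, y τ = ∑ τ, m τ) :
    ∏ τ, (y τ).choose (m τ) = if y = m then 1 else 0 := by
  split_ifs with h
  · subst h
    simp
  · rw [prod_eq_zero_iff]
    by_contra hc
    push Not at hc
    apply h
    have h1 : ∀ τ ∈ univ, m τ ≤ y τ := fun τ _ => by
      by_contra hlt
      exact hc τ (mem_univ τ) (Nat.choose_eq_zero_of_lt (not_le.1 hlt))
    have h2 := (sum_eq_sum_iff_of_le h1).1 hs.symm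
    funext τ
    exact (h2 τ (mem_univ τ)).symm

/-- the vector `m - 1_R` -/
noncomputable def absN {T : Type u} (m : T → ℕ) (R : Finset T) (τ : T) : ℕ := if τ ∈ R then m τ - 1 else m τ

lemma abs_sum_absN {T : Type u} [Fintype T] (m : T → ℕ) (R : Finset T) (hR : ∀ τ ∈ R, 1 ≤ m τ) :
    ∑ τ, absN m R τ + R.card = ∑ τ, m τ := by
  have h1 : ∀ τ ∈ (univ : Finset T), m τ = absN m R τ + if τ ∈ R then 1 else 0 := by
    intro τ _
    unfold absN
    split_ifs with h
    · have := hR τ h; omega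
    · rfl
  rw [sum_congr rfl h1, sum_add_distrib]
  congr 1
  simp

/-- the test function -/
noncomputable def absE {T : Type u} (m : T → ℕ) (S : Finset T) (y : T → ℕ) : ℚ :=
  ∏ τ ∈ S, (-(2 / 3) / (m τ : ℚ) * ((y τ).choose (m τ - 1) : ℚ) + ((y τ).choose (m τ) : ℚ))

lemma abs_expand {T : Type u} [Fintype T] (m : T → ℕ) (S : Finset T) (hS : ∀ τ, τ ∉ S → m τ = 0)
    (y : T → ℕ) :
    absE m S y = ∑ R ∈ S.powerset, (∏ τ ∈ R, (-(2 / 3) / (m τ : ℚ))) *
      ((∏ τ, (y τ).choose (absN m R τ) : ℕ) : ℚ) := by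
  unfold absE
  rw [prod_add]
  refine sum_congr rfl fun R hR => ?_
  have hRS := mem_powerset.1 hR
  rw [prod_mul_distrib, mul_assoc]
  congr 1
  have h1 : ∏ τ, (y τ).choose (absN m R τ) = ∏ τ ∈ S, (y τ).choose (absN m R τ) := by
    refine (prod_subset (subset_univ S) fun τ _ hτ => ?_).symm
    unfold absN
    rw [if_neg (fun h => hτ (hRS h)), hS τ hτ, Nat.choose_zero_right]
  rw [h1, ← prod_sdiff hRS, mul_comm]
  push_cast
  congr 1
  · refine prod_congr rfl fun τ hτ => ?_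
    rw [absN, if_neg (mem_sdiff.1 hτ).2]
  · refine prod_congr rfl fun τ hτ => ?_
    rw [absN, if_pos hτ]

lemma abs_bound {T : Type u} [Fintype T] (m : T → ℕ) (S : Finset T) (hS : ∀ τ, τ ∉ S → m τ = 0)
    (hS1 : ∀ τ ∈ S, 1 ≤ m τ) (y : T → ℕ)
    (hP : ∏ τ, (y τ).factorial = ∏ τ, (m τ).factorial) : |absE m S y| ≤ (2 / 3) ^ S.card := by
  unfold absE
  rw [abs_prod]
  refine (prod_le_prod (fun _ _ => abs_nonneg _) fun τ hτ => abs_factor (y τ) (m τ) (hS1 τ hτ)).trans ?_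
  rw [prod_mul_distrib, prod_const]
  have h1 : ∏ τ ∈ S, ((y τ).factorial : ℚ) / ((m τ).factorial : ℚ) ≤ 1 := by
    rw [prod_div_distrib, div_le_one (prod_pos fun τ _ => by positivity)]
    have h2 : ∏ τ ∈ S, (m τ).factorial = ∏ τ, (m τ).factorial := by
      refine prod_subset (subset_univ S) fun τ _ hτ => ?_
      rw [hS τ hτ, Nat.factorial_zero]
    have h3 : ∏ τ ∈ S, (y τ).factorial ≤ ∏ τ, (y τ).factorial :=
      prod_le_prod_of_subset_of_one_le' (subset_univ S) fun τ _ _ => Nat.factorial_pos _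
    rw [hP, ← h2] at h3
    exact_mod_cast h3
  have h2 : (0 : ℚ) ≤ (2 / 3) ^ S.card := by positivity
  nlinarith [mul_le_mul_of_nonneg_left h1 h2]

/-- SEP-8 (the abstract lemma). -/
theorem sep_abstract {T ι κ : Type u} [Fintype T] (c q : ℕ) (I : Finset ι) (J : Finset κ)
    (x : ι → T → ℕ) (y : κ → T → ℕ) (hc : 2 ≤ c) (hq : q * (q - 1) < 2 * c)
    (hcard : 2 * I.card * 2 ^ q < 3 ^ q)
    (hx : ∀ i ∈ I, ∑ τ, x i τ = c) (hy : ∀ j ∈ J, ∑ τ, y j τ = c)
    (h : ∀ N : T → ℕ, ∑ τ, N τ < c →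
      ∑ i ∈ I, ∏ τ, (x i τ).choose (N τ) = ∑ j ∈ J, ∏ τ, (y j τ).choose (N τ))
    (hfx : ∀ i ∈ I, ∀ i' ∈ I, ∏ τ, (x i τ).factorial = ∏ τ, (x i' τ).factorial)
    (hfy : ∀ j ∈ J, ∀ j' ∈ J, ∏ τ, (y j τ).factorial = ∏ τ, (y j' τ).factorial)
    (hsx : ∀ i ∈ I, ∀ i' ∈ I, ∑ τ, (x i τ).choose 2 = ∑ τ, (x i' τ).choose 2)
    (hsy : ∀ j ∈ J, ∀ j' ∈ J, ∑ τ, (y j τ).choose 2 = ∑ τ, (y j' τ).choose 2)
    (i : ι) (hi : i ∈ I) : ∃ j ∈ J, y j = x i := by
  by_contra hno
  push Not at hno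
  have hI1 : 1 ≤ I.card := card_pos.2 ⟨i, hi⟩
  have hIJ : I.card = J.card := by
    have := h 0 (by simp; omega)
    simpa using this
  have hJ1 : 1 ≤ J.card := by omega
  rcases Nat.lt_or_ge c 3 with hc3 | hc3
  · -- `c = 2`
    have hc2 : c = 2 := by omega
    subst hc2
    have hq2 : q ≤ 2 := by
      by_contra hlt
      have h1 : 3 ≤ q := by omega
      have h2 : 3 * 2 ≤ q * (q - 1) := Nat.mul_le_mul h1 (by omega)
      omega
    have hI : I.card = 1 := by
      interval_cases q <;> omega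
    obtain ⟨j, hj⟩ := card_eq_one.1 (hIJ ▸ hI)
    obtain ⟨i', hi'⟩ := card_eq_one.1 hI
    have hii : i = i' := by rw [hi'] at hi; exact mem_singleton.1 hi
    subst hii
    refine hno j (by rw [hj]; exact mem_singleton_self j) ?_
    funext τ
    have h1 := h (Pi.single τ 1) (by rw [sum_pi_single']; simp)
    rw [hj, hi', sum_singleton, sum_singleton] at h1
    have h2 : ∀ z : T → ℕ, ∏ ρ, (z ρ).choose ((Pi.single τ 1 : T → ℕ) ρ) = z τ := by
      intro z
      rw [prod_eq_single τ]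
      · simp
      · intro ρ _ hρ
        rw [Pi.single_eq_of_ne hρ, Nat.choose_zero_right]
      · intro hτ; exact absurd (mem_univ τ) hτ
    rw [h2, h2] at h1
    exact h1.symm
  set m := x i with hm
  have hmc : ∑ τ, m τ = c := hx i hi
  -- (a) and (b)
  have hab : ∀ σ, 1 ≤ m σ → ∃ j ∈ J, ∃ τ, m τ + 1 = m σ ∧ y j = m ∘ Equiv.swap σ τ := by
    intro σ hσ
    have h1 := abs_sum_absN m {σ} (by simpa using hσ)
    rw [card_singleton, hmc] at h1
    have h2 := h (absN m {σ}) (by omega)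
    have h3 : 1 ≤ ∑ i' ∈ I, ∏ τ, (x i' τ).choose (absN m {σ} τ) := by
      have h4 : 1 ≤ ∏ τ, (x i τ).choose (absN m {σ} τ) := by
        refine Nat.one_le_iff_ne_zero.2 (prod_ne_zero_iff.2 fun τ _ => ?_)
        refine (Nat.choose_pos ?_).ne'
        show absN m {σ} τ ≤ m τ
        unfold absN
        split_ifs <;> omega
      exact h4.trans (single_le_sum (f := fun i' => ∏ τ, (x i' τ).choose (absN m {σ} τ))
        (fun _ _ => Nat.zero_le _) hi)
    rw [h2] at h3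
    obtain ⟨j, hj, hne⟩ := exists_ne_zero_of_sum_ne_zero (Nat.one_le_iff_ne_zero.1 h3)
    have h4 : ∀ τ, absN m {σ} τ ≤ y j τ := by
      intro τ
      by_contra hlt
      exact prod_ne_zero_iff.1 hne τ (mem_univ τ) (Nat.choose_eq_zero_of_lt (not_le.1 hlt))
    -- `y j = absN + e_τ`
    have h5 : ∃ τ, ∀ ρ, y j ρ = absN m {σ} ρ + if ρ = τ then 1 else 0 := by
      have h6 : ∑ ρ, (y j ρ - absN m {σ} ρ) = 1 := by
        have h7 : ∑ ρ, (y j ρ - absN m {σ} ρ) + ∑ ρ, absN m {σ} ρ = ∑ ρ, y j ρ := by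
          rw [← sum_add_distrib]
          exact sum_congr rfl fun ρ _ => Nat.sub_add_cancel (h4 ρ)
        rw [hy j hj] at h7
        omega
      obtain ⟨τ, _, hτ⟩ := exists_ne_zero_of_sum_ne_zero
        (show ∑ ρ, (y j ρ - absN m {σ} ρ) ≠ 0 by omega)
      refine ⟨τ, fun ρ => ?_⟩
      rw [← add_sum_erase _ _ (mem_univ τ)] at h6
      have h8 : ∑ ρ ∈ univ.erase τ, (y j ρ - absN m {σ} ρ) = 0 := by omega
      rw [sum_eq_zero_iff] at h8
      by_cases hρ : ρ = τ
      · subst hρ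
        rw [if_pos rfl]
        have := h4 ρ
        omega
      · rw [if_neg hρ]
        have := h8 ρ (mem_erase.2 ⟨hρ, mem_univ ρ⟩)
        have := h4 ρ
        omega
    obtain ⟨τ, hτ⟩ := h5
    have hτσ : τ ≠ σ := by
      rintro rfl
      apply hno j hj
      funext ρ
      rw [hτ ρ]
      unfold absN
      by_cases hρ : ρ = τ
      · subst hρ
        simp only [mem_singleton, if_true]
        omega
      · simp [hρ]
    have hyσ : y j σ = m σ - 1 := by
      rw [hτ σ, if_neg (Ne.symm hτσ)]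
      simp [absN]
    have hyτ : y j τ = m τ + 1 := by
      rw [hτ τ, if_pos rfl]
      simp [absN, hτσ]
    have hyρ : ∀ ρ, ρ ≠ σ → ρ ≠ τ → y j ρ = m ρ := by
      intro ρ h6 h7
      rw [hτ ρ, if_neg h7]
      simp [absN, h6]
    -- the second moments
    have h2m : ∑ τ, (m τ).choose 2 = ∑ τ, (y j τ).choose 2 := by
      have h6 : ∀ z : T → ℕ, ∀ τ, ∏ ρ, (z ρ).choose ((Pi.single τ 2 : T → ℕ) ρ) = (z τ).choose 2 := by
        intro z τ
        rw [prod_eq_single τ]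
        · simp
        · intro ρ _ hρ
          rw [Pi.single_eq_of_ne hρ, Nat.choose_zero_right]
        · intro hτ; exact absurd (mem_univ τ) hτ
      have h7 : ∑ i' ∈ I, ∑ τ, (x i' τ).choose 2 = ∑ j' ∈ J, ∑ τ, (y j' τ).choose 2 := by
        rw [sum_comm, sum_comm (s := J)]
        refine sum_congr rfl fun τ _ => ?_
        have := h (Pi.single τ 2) (by rw [sum_pi_single']; simp; omega)
        simpa only [h6] using this
      rw [sum_congr rfl (fun i' hi' => hsx i' hi' i hi),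
        sum_congr rfl (fun j' hj' => hsy j' hj' j hj), sum_const, sum_const, hIJ, smul_eq_mul,
        smul_eq_mul] at h7
      exact Nat.eq_of_mul_eq_mul_left (by omega) h7
    have hkey : m τ + 1 = m σ := by
      have hτσ' : τ ∈ univ.erase σ := mem_erase.2 ⟨hτσ, mem_univ τ⟩
      rw [← add_sum_erase _ _ (mem_univ σ), ← add_sum_erase _ _ hτσ',
        ← add_sum_erase _ (fun τ => (y j τ).choose 2) (mem_univ σ),
        ← add_sum_erase _ (fun τ => (y j τ).choose 2) hτσ'] at h2m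
      rw [sum_congr rfl (fun ρ hρ => by
        rw [hyρ ρ (ne_of_mem_erase (mem_of_mem_erase hρ)) (ne_of_mem_erase hρ)] :
          ∀ ρ ∈ (univ.erase σ).erase τ, (y j ρ).choose 2 = (m ρ).choose 2)] at h2m
      simp only [hyσ, hyτ] at h2m
      obtain ⟨k, hk⟩ : ∃ k, m σ = k + 1 := ⟨m σ - 1, by omega⟩
      rw [hk] at h2m ⊢
      have e1 : (k + 1).choose 2 = k + k.choose 2 := by
        rw [Nat.choose_succ_succ' k 1, Nat.choose_one_right]
      have e2 : (m τ + 1).choose 2 = m τ + (m τ).choose 2 := by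
        rw [Nat.choose_succ_succ' (m τ) 1, Nat.choose_one_right]
      rw [e2, Nat.add_sub_cancel, e1] at h2m
      omega
    refine ⟨j, hj, τ, hkey, ?_⟩
    funext ρ
    simp only [Function.comp_apply]
    by_cases h6 : ρ = σ
    · subst h6
      rw [Equiv.swap_apply_left, hyσ]
      omega
    · by_cases h7 : ρ = τ
      · subst h7
        rw [Equiv.swap_apply_right, hyτ]
        omega
      · rw [Equiv.swap_apply_of_ne_of_ne h6 h7, hyρ ρ h6 h7]
  -- the factorials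
  obtain ⟨σ₀, _, hσ₀⟩ := exists_ne_zero_of_sum_ne_zero (show ∑ τ, m τ ≠ 0 by omega)
  obtain ⟨j₀, hj₀, τ₀, _, hyj₀⟩ := hab σ₀ (Nat.one_le_iff_ne_zero.2 hσ₀)
  have hPy : ∀ j ∈ J, ∏ τ, (y j τ).factorial = ∏ τ, (m τ).factorial := by
    intro j hj
    rw [hfy j hj j₀ hj₀, hyj₀]
    exact Equiv.prod_comp (Equiv.swap σ₀ τ₀) fun τ => (m τ).factorial
  have hPx : ∀ i' ∈ I, ∏ τ, (x i' τ).factorial = ∏ τ, (m τ).factorial :=
    fun i' hi' => hfx i' hi' i hi
  -- the support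
  set S : Finset T := univ.filter (fun τ => m τ ≠ 0) with hS
  have hS0 : ∀ τ, τ ∉ S → m τ = 0 := by
    intro τ hτ
    by_contra h0
    exact hτ (mem_filter.2 ⟨mem_univ τ, h0⟩)
  have hS1 : ∀ τ ∈ S, 1 ≤ m τ := fun τ hτ => Nat.one_le_iff_ne_zero.2 (mem_filter.1 hτ).2
  have hlad := abs_ladder m S.card S rfl (by
    intro σ hσ hσ2
    obtain ⟨_, _, τ, hτ, _⟩ := hab σ (by omega)
    exact ⟨τ, mem_filter.2 ⟨mem_univ τ, by omega⟩, hτ⟩)
  have hSsum : ∑ τ ∈ S, m τ = c := by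
    rw [← hmc]
    exact sum_subset (subset_univ S) fun τ _ hτ => hS0 τ hτ
  rw [hSsum] at hlad
  have hqr : q ≤ S.card := by
    by_contra hlt
    have h1 : (S.card + 1) * S.card ≤ q * (q - 1) := Nat.mul_le_mul (by omega) (by omega)
    have h2 : S.card * (S.card + 1) = (S.card + 1) * S.card := mul_comm _ _
    omega
  -- the test function
  have hdiff : (1 : ℚ) ≤ ∑ i' ∈ I, absE m S (x i') - ∑ j ∈ J, absE m S (y j) := by
    have h1 : ∀ i', absE m S (x i') = ∑ R ∈ S.powerset, (∏ τ ∈ R, (-(2 / 3) / (m τ : ℚ))) *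
        ((∏ τ, (x i' τ).choose (absN m R τ) : ℕ) : ℚ) := fun i' => abs_expand m S hS0 (x i')
    have h2 : ∀ j, absE m S (y j) = ∑ R ∈ S.powerset, (∏ τ ∈ R, (-(2 / 3) / (m τ : ℚ))) *
        ((∏ τ, (y j τ).choose (absN m R τ) : ℕ) : ℚ) := fun j => abs_expand m S hS0 (y j)
    rw [sum_congr rfl (fun i' _ => h1 i'), sum_congr rfl (fun j _ => h2 j), sum_comm,
      sum_comm (s := J), ← sum_sub_distrib]
    rw [← add_sum_erase _ _ (empty_mem_powerset S)]
    have h3 : ∑ R ∈ S.powerset.erase ∅, (∑ i' ∈ I, (∏ τ ∈ R, (-(2 / 3) / (m τ : ℚ))) *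
        ((∏ τ, (x i' τ).choose (absN m R τ) : ℕ) : ℚ) -
        ∑ j ∈ J, (∏ τ ∈ R, (-(2 / 3) / (m τ : ℚ))) *
        ((∏ τ, (y j τ).choose (absN m R τ) : ℕ) : ℚ)) = 0 := by
      refine sum_eq_zero fun R hR => ?_
      obtain ⟨hR0, hRS⟩ := mem_erase.1 hR
      rw [mem_powerset] at hRS
      have h4 := abs_sum_absN m R (fun τ hτ => hS1 τ (hRS hτ))
      have h5 : 0 < R.card := card_pos.2 (nonempty_iff_ne_empty.2 hR0)
      have h6 := h (absN m R) (by omega)
      rw [← mul_sum, ← mul_sum, ← Nat.cast_sum, ← Nat.cast_sum, h6, sub_self]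
    rw [h3, add_zero]
    simp only [prod_empty, one_mul]
    have hN : absN m ∅ = m := by
      funext τ
      simp [absN]
    rw [hN]
    have h4 : ∑ j ∈ J, ((∏ τ, (y j τ).choose (m τ) : ℕ) : ℚ) = 0 := by
      refine sum_eq_zero fun j hj => ?_
      rw [abs_choose_prod (y j) m (by rw [hy j hj, hmc]), if_neg (hno j hj), Nat.cast_zero]
    have h5 : (1 : ℚ) ≤ ∑ i' ∈ I, ((∏ τ, (x i' τ).choose (m τ) : ℕ) : ℚ) := by
      have h6 : ((∏ τ, (x i τ).choose (m τ) : ℕ) : ℚ) = 1 := by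
        rw [abs_choose_prod (x i) m (by rw [← hm]), if_pos hm.symm, Nat.cast_one]
      rw [← h6]
      exact single_le_sum (f := fun i' => ((∏ τ, (x i' τ).choose (m τ) : ℕ) : ℚ))
        (fun _ _ => Nat.cast_nonneg _) hi
    rw [h4, sub_zero]
    exact h5
  have hb : |∑ i' ∈ I, absE m S (x i') - ∑ j ∈ J, absE m S (y j)| ≤
      2 * I.card * (2 / 3) ^ S.card := by
    have h1 : |∑ i' ∈ I, absE m S (x i')| ≤ I.card * (2 / 3) ^ S.card := by
      refine (abs_sum_le_sum_abs _ _).trans ?_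
      refine (sum_le_sum fun i' hi' => abs_bound m S hS0 hS1 (x i') (hPx i' hi')).trans ?_
      rw [sum_const, nsmul_eq_mul]
    have h2 : |∑ j ∈ J, absE m S (y j)| ≤ I.card * (2 / 3) ^ S.card := by
      refine (abs_sum_le_sum_abs _ _).trans ?_
      refine (sum_le_sum fun j hj => abs_bound m S hS0 hS1 (y j) (hPy j hj)).trans ?_
      rw [sum_const, nsmul_eq_mul, hIJ]
    refine (abs_sub _ _).trans ?_
    linarith
  have h1 : (1 : ℚ) ≤ 2 * I.card * (2 / 3) ^ S.card := (hdiff.trans (le_abs_self _)).trans hb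
  have h2 : (3 : ℚ) ^ S.card ≤ 2 * I.card * 2 ^ S.card := by
    have h3 : (0 : ℚ) < 3 ^ S.card := by positivity
    have h4 := mul_le_mul_of_nonneg_right h1 h3.le
    rw [one_mul, div_pow, mul_assoc, div_mul_cancel₀ _ h3.ne'] at h4
    exact h4
  have h3 : 3 ^ S.card ≤ 2 * I.card * 2 ^ S.card := by exact_mod_cast h2
  obtain ⟨e, he⟩ := Nat.exists_eq_add_of_le hqr
  rw [he, pow_add, pow_add] at h3
  have h4 : 2 * I.card * (2 ^ q * 2 ^ e) ≤ 2 * I.card * 2 ^ q * 3 ^ e := by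
    rw [← mul_assoc]
    exact Nat.mul_le_mul_left _ (Nat.pow_le_pow_left (by norm_num) e)
  have h5 : 2 * I.card * 2 ^ q * 3 ^ e < 3 ^ q * 3 ^ e :=
    Nat.mul_lt_mul_of_pos_right hcard (by positivity)
  omega

end Pool.Agent.Sep
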