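import Mathlib
import Pool.Agent.Sep.Defs

/-!
Closed sets are the unions of components; their number with given numbers of components of each
type is a product of binomial coefficients.
-/

set_option autoImplicit false

namespace Pool.Agent.Sep

open Finset Classical

universe u

variable {V : Type u} [Fintype V]

lemma cc_mem_comp {K : SimpleGraph V} {Y : Finset V} {v u : V} :
    u ∈ comp K Y v ↔ u ∈ Y ∧ (res K Y).Reachable v u := by
  rw [comp, mem_filter]

lemma cc_self_mem {K : SimpleGraph V} {Y : Finset V} {v : V} (hv : v ∈ Y) : v ∈ comp K Y v :=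
  cc_mem_comp.mpr ⟨hv, SimpleGraph.Reachable.refl _⟩

lemma cc_comp_eq {K : SimpleGraph V} {Y : Finset V} {v u : V} (h : u ∈ comp K Y v) :
    comp K Y u = comp K Y v := by
  have h2 := (cc_mem_comp.mp h).2
  ext x
  rw [cc_mem_comp, cc_mem_comp]
  exact and_congr Iff.rfl ⟨fun h' => h2.trans h', fun h' => h2.symm.trans h'⟩

lemma cc_comp_mem {K : SimpleGraph V} {Y : Finset V} {v : V} (hv : v ∈ Y) :
    comp K Y v ∈ comps K Y := mem_image_of_mem _ hv

lemma cc_eq_comp {K : SimpleGraph V} {Y D : Finset V} {v : V} (hD : D ∈ comps K Y)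
    (hv : v ∈ D) : D = comp K Y v := by
  obtain ⟨w, _, rfl⟩ := mem_image.mp hD
  exact (cc_comp_eq hv).symm

lemma cc_subset {K : SimpleGraph V} {Y D : Finset V} (hD : D ∈ comps K Y) : D ⊆ Y := by
  obtain ⟨w, _, rfl⟩ := mem_image.mp hD
  exact filter_subset _ _

lemma cc_nonempty {K : SimpleGraph V} {Y D : Finset V} (hD : D ∈ comps K Y) : D.Nonempty := by
  obtain ⟨w, hw, rfl⟩ := mem_image.mp hD
  exact ⟨w, cc_self_mem hw⟩

/-- components of a closed set are components of the complement of `A` -/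
lemma cc_comp_closed {A : Finset V} {K : SimpleGraph V} {Y : Finset V} (hY : Y ⊆ Aᶜ)
    (hc : Closed K A Y) {v : V} (hv : v ∈ Y) : comp K Aᶜ v = comp K Y v := by
  ext x
  rw [cc_mem_comp, cc_mem_comp]
  constructor
  · rintro ⟨_, h⟩
    rw [SimpleGraph.reachable_iff_reflTransGen] at h
    induction h with
    | refl => exact ⟨hv, SimpleGraph.Reachable.refl _⟩
    | tail _ hbc ih =>
      obtain ⟨hb, hr⟩ := ih hbc.2.1
      have hcY := hc _ hb _ (mem_compl.mp hbc.2.2) hbc.1
      refine ⟨hcY, hr.trans (SimpleGraph.Adj.reachable ?_)⟩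
      exact ⟨hbc.1, hb, hcY⟩
  · rintro ⟨hx, h⟩
    refine ⟨hY hx, h.mono ?_⟩
    intro a b hab
    exact ⟨hab.1, hY hab.2.1, hY hab.2.2⟩

lemma cc_comps_closed {A : Finset V} {K : SimpleGraph V} {Y : Finset V} (hY : Y ⊆ Aᶜ)
    (hc : Closed K A Y) : comps K Y = (comps K Aᶜ).filter (fun D => D ⊆ Y) := by
  ext D
  rw [mem_filter]
  constructor
  · intro hD
    obtain ⟨v, hv, rfl⟩ := mem_image.mp hD
    refine ⟨?_, cc_subset hD⟩
    rw [← cc_comp_closed hY hc hv]
    exact cc_comp_mem (hY hv)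
  · rintro ⟨hD, hDY⟩
    obtain ⟨v, hv⟩ := cc_nonempty hD
    have h1 := cc_eq_comp hD hv
    rw [h1, cc_comp_closed hY hc (hDY hv)]
    exact cc_comp_mem (hDY hv)

lemma cc_biUnion_comps (K : SimpleGraph V) (Y : Finset V) : (comps K Y).biUnion id = Y := by
  ext x
  rw [mem_biUnion]
  constructor
  · rintro ⟨D, hD, hx⟩
    exact cc_subset hD hx
  · intro hx
    exact ⟨comp K Y x, cc_comp_mem hx, cc_self_mem hx⟩

lemma cc_closed_biUnion {A : Finset V} {K : SimpleGraph V} {F : Finset (Finset V)}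
    (hF : F ⊆ comps K Aᶜ) : Closed K A (F.biUnion id) := by
  intro u hu v hv huv
  obtain ⟨D, hD, huD⟩ := mem_biUnion.mp hu
  refine mem_biUnion.mpr ⟨D, hD, ?_⟩
  have h1 := cc_eq_comp (hF hD) huD
  have huA : u ∈ (Aᶜ : Finset V) := cc_subset (hF hD) huD
  have hvA : v ∈ (Aᶜ : Finset V) := mem_compl.mpr hv
  show v ∈ D
  rw [h1]
  exact cc_mem_comp.mpr ⟨hvA, SimpleGraph.Adj.reachable ⟨huv, huA, hvA⟩⟩

lemma cc_subset_compl {A : Finset V} {K : SimpleGraph V} {F : Finset (Finset V)}
    (hF : F ⊆ comps K Aᶜ) : F.biUnion id ⊆ Aᶜ := by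
  intro x hx
  obtain ⟨D, hD, hxD⟩ := mem_biUnion.mp hx
  exact cc_subset (hF hD) hxD

lemma cc_comps_biUnion {A : Finset V} {K : SimpleGraph V} {F : Finset (Finset V)}
    (hF : F ⊆ comps K Aᶜ) : comps K (F.biUnion id) = F := by
  rw [cc_comps_closed (cc_subset_compl hF) (cc_closed_biUnion hF)]
  ext D
  rw [mem_filter]
  constructor
  · rintro ⟨hD, hDY⟩
    obtain ⟨v, hv⟩ := cc_nonempty hD
    obtain ⟨E, hE, hvE⟩ := mem_biUnion.mp (hDY hv)
    have h1 := cc_eq_comp hD hv
    have h2 := cc_eq_comp (hF hE) hvE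
    rw [h1, ← h2]
    exact hE
  · intro hD
    exact ⟨hF hD, subset_biUnion_of_mem id hD⟩

/-- the number of subsets of `C` with prescribed numbers of elements of each type -/
lemma cc_card_types {α T : Type u} [Fintype T] (C : Finset α) (t : α → T) (N : T → ℕ) :
    (C.powerset.filter (fun F => ∀ τ, (F.filter (fun D => t D = τ)).card = N τ)).card =
      ∏ τ, ((C.filter (fun D => t D = τ)).card).choose (N τ) := by
  have h : (Fintype.piFinset (fun τ => (C.filter (fun D => t D = τ)).powersetCard (N τ))).card =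
      ∏ τ, ((C.filter (fun D => t D = τ)).card).choose (N τ) := by
    rw [Fintype.card_piFinset]
    exact prod_congr rfl fun τ _ => card_powersetCard _ _
  rw [← h]
  refine card_bij' (fun F _ τ => F.filter (fun D => t D = τ)) (fun G _ => univ.biUnion G)
    ?_ ?_ ?_ ?_
  · intro F hF
    rw [mem_filter, mem_powerset] at hF
    rw [Fintype.mem_piFinset]
    intro τ
    rw [mem_powersetCard]
    exact ⟨filter_subset_filter _ hF.1, hF.2 τ⟩
  · intro G hG
    rw [Fintype.mem_piFinset] at hG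
    have hG' : ∀ τ, G τ ⊆ C.filter (fun D => t D = τ) ∧ (G τ).card = N τ :=
      fun τ => mem_powersetCard.mp (hG τ)
    rw [mem_filter, mem_powerset]
    refine ⟨?_, ?_⟩
    · intro x hx
      obtain ⟨τ, _, hx⟩ := mem_biUnion.mp hx
      exact (mem_filter.mp ((hG' τ).1 hx)).1
    · intro τ
      rw [← (hG' τ).2]
      congr 1
      ext x
      rw [mem_filter, mem_biUnion]
      constructor
      · rintro ⟨⟨τ', _, hx⟩, hxt⟩
        have := (mem_filter.mp ((hG' τ').1 hx)).2
        rw [← hxt, this]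
        exact hx
      · intro hx
        exact ⟨⟨τ, mem_univ _, hx⟩, (mem_filter.mp ((hG' τ).1 hx)).2⟩
  · intro F hF
    ext x
    rw [mem_biUnion]
    constructor
    · rintro ⟨τ, _, hx⟩
      exact (mem_filter.mp hx).1
    · intro hx
      exact ⟨t x, mem_univ _, mem_filter.mpr ⟨hx, rfl⟩⟩
  · intro G hG
    rw [Fintype.mem_piFinset] at hG
    have hG' : ∀ τ, G τ ⊆ C.filter (fun D => t D = τ) ∧ (G τ).card = N τ :=
      fun τ => mem_powersetCard.mp (hG τ)
    funext τ
    ext x
    rw [mem_filter, mem_biUnion]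
    constructor
    · rintro ⟨⟨τ', _, hx⟩, hxt⟩
      have := (mem_filter.mp ((hG' τ').1 hx)).2
      rw [← hxt, this]
      exact hx
    · intro hx
      exact ⟨⟨τ, mem_univ _, hx⟩, (mem_filter.mp ((hG' τ).1 hx)).2⟩

/-- SEP-4 (closed sets are unions of components). -/
theorem sep_card_closed (A : Finset V) (K : SimpleGraph V) (N : Ty A → ℕ) :
    ((Aᶜ : Finset V).powerset.filter (fun Y => Closed K A Y ∧ xv A K Y = N)).card =
      ∏ τ, (xv A K Aᶜ τ).choose (N τ) := by
  have h := cc_card_types (comps K Aᶜ) (fun D => ty A K D) N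
  refine Eq.trans (b := ((comps K Aᶜ).powerset.filter (fun F => ∀ τ,
    (F.filter (fun D => ty A K D = τ)).card = N τ)).card) ?_ ?_
  swap
  · simp only [xv]
    convert h
  refine card_bij' (fun Y _ => comps K Y) (fun F _ => F.biUnion id) ?_ ?_ ?_ ?_
  · intro Y hY
    rw [mem_filter, mem_powerset] at hY
    obtain ⟨hY1, hY2, hY3⟩ := hY
    rw [mem_filter, mem_powerset]
    refine ⟨?_, fun τ => ?_⟩
    · rw [cc_comps_closed hY1 hY2]
      exact filter_subset _ _
    · rw [← hY3]
      rfl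
  · intro F hF
    rw [mem_filter, mem_powerset] at hF
    rw [mem_filter, mem_powerset]
    refine ⟨cc_subset_compl hF.1, cc_closed_biUnion hF.1, ?_⟩
    funext τ
    rw [xv, cc_comps_biUnion hF.1]
    exact hF.2 τ
  · intro Y hY
    exact cc_biUnion_comps K Y
  · intro F hF
    rw [mem_filter, mem_powerset] at hF
    exact cc_comps_biUnion hF.1

end Pool.Agent.Sep
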