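import Mathlib
import Pool.Agent.Sep.Defs

/-!
SEP-2: closed sets, by inclusion-exclusion.
-/

set_option autoImplicit false

namespace Pool.Agent.Sep

open Finset Classical

universe u

variable {V : Type u} [Fintype V]

/-- The sets `T ⊆ X` every element of which has a neighbour in `X \ T`. -/
noncomputable def clT (K : SimpleGraph V) (X : Finset V) : Finset (Finset V) :=
  X.powerset.filter (fun T => ∀ t ∈ T, ∃ y ∈ X \ T, K.Adj t y)

/-- The alternating sum. -/
noncomputable def clg (f : SimpleGraph V → Finset V → ℚ) (K : SimpleGraph V) (X : Finset V) : ℚ :=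
  ∑ T ∈ clT K X, (-1) ^ T.card * f K (X \ T)

omit [Fintype V] in
lemma cl_im_sdiff (σ : Equiv.Perm V) (X Y : Finset V) : im σ (X \ Y) = im σ X \ im σ Y := by
  ext x
  rw [mem_im_iff_inv, mem_sdiff, mem_sdiff, mem_im_iff_inv, mem_im_iff_inv]

omit [Fintype V] in
lemma cl_im_subset {σ : Equiv.Perm V} {X Y : Finset V} (h : X ⊆ Y) : im σ X ⊆ im σ Y := by
  intro x hx
  rw [mem_im_iff_inv] at hx ⊢
  exact h hx

lemma cl_inv (A : Finset V) (f : SimpleGraph V → Finset V → ℚ) (hf : Inv A f) :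
    Inv A (clg f) := by
  intro K L σ X hd hA hag
  unfold clg
  refine Finset.sum_bij' (fun T _ => im σ T) (fun T _ => im σ⁻¹ T) ?_ ?_ ?_ ?_ ?_
  · intro T hT
    simp only [clT, mem_filter, mem_powerset] at hT ⊢
    refine ⟨cl_im_subset hT.1, ?_⟩
    intro t ht
    obtain ⟨t', ht', rfl⟩ := mem_im.mp ht
    obtain ⟨y, hy, hadj⟩ := hT.2 t' ht'
    refine ⟨σ y, ?_, ?_⟩
    · rw [← cl_im_sdiff]
      exact apply_mem_im.mpr hy
    · rw [← hag t' (mem_union_right _ (hT.1 ht')) y (mem_union_right _ (mem_sdiff.mp hy).1)]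
      exact hadj
  · intro T hT
    simp only [clT, mem_filter, mem_powerset] at hT ⊢
    have hsub : im σ⁻¹ T ⊆ X := by
      intro x hx
      rw [mem_im_iff_inv, inv_inv] at hx
      exact apply_mem_im.mp (hT.1 hx)
    refine ⟨hsub, ?_⟩
    intro t ht
    have ht2 := ht
    rw [mem_im_iff_inv, inv_inv] at ht
    obtain ⟨y, hy, hadj⟩ := hT.2 _ ht
    rw [mem_sdiff] at hy
    obtain ⟨y', hy', rfl⟩ := mem_im.mp hy.1
    refine ⟨y', ?_, ?_⟩
    · rw [mem_sdiff, mem_im_iff_inv, inv_inv]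
      exact ⟨hy', hy.2⟩
    · rw [hag t (mem_union_right _ (hsub ht2)) y' (mem_union_right _ hy')]
      exact hadj
  · intro T _
    exact im_inv_im σ T
  · intro T _
    exact im_im_inv σ T
  · intro T hT
    simp only [clT, mem_filter, mem_powerset] at hT
    rw [card_im, ← cl_im_sdiff]
    congr 1
    refine hf K L σ (X \ T) (hd.mono_right sdiff_subset) hA (hag.mono ?_)
    exact union_subset_union_right sdiff_subset

/-- The neighbours of `Y` outside `A ∪ Y`. -/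
noncomputable def clN (A : Finset V) (K : SimpleGraph V) (Y : Finset V) : Finset V :=
  ((Aᶜ : Finset V) \ Y).filter (fun t => ∃ y ∈ Y, K.Adj t y)

lemma clN_eq_empty (A : Finset V) (K : SimpleGraph V) (Y : Finset V) :
    clN A K Y = ∅ ↔ Closed K A Y := by
  unfold clN Closed
  rw [Finset.filter_eq_empty_iff]
  constructor
  · intro h u hu v hv hadj
    by_contra hvY
    exact h (x := v) (by rw [mem_sdiff, mem_compl]; exact ⟨hv, hvY⟩) ⟨u, hu, hadj.symm⟩
  · rintro h t ht ⟨y, hy, hadj⟩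
    rw [mem_sdiff, mem_compl] at ht
    exact ht.2 (h y hy t ht.1 hadj.symm)

omit [Fintype V] in
lemma cl_alt (S : Finset V) : ∑ T ∈ S.powerset, (-1 : ℚ) ^ T.card = if S = ∅ then 1 else 0 := by
  have h := Finset.sum_powerset_neg_one_pow_card (x := S)
  have h2 : ((∑ m ∈ S.powerset, (-1 : ℤ) ^ m.card : ℤ) : ℚ) =
      ((if S = ∅ then 1 else 0 : ℤ) : ℚ) := by rw [h]
  push_cast at h2
  exact h2

lemma cl_exchange (A : Finset V) (f : SimpleGraph V → Finset V → ℚ) (K : SimpleGraph V) :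
    ∑ X ∈ (Aᶜ : Finset V).powerset, clg f K X =
      ∑ Y ∈ (Aᶜ : Finset V).powerset.filter (fun Y => Closed K A Y), f K Y := by
  have h1 : ∑ X ∈ (Aᶜ : Finset V).powerset, clg f K X =
      ∑ Y ∈ (Aᶜ : Finset V).powerset, ∑ T ∈ (clN A K Y).powerset, (-1) ^ T.card * f K Y := by
    unfold clg
    rw [Finset.sum_sigma', Finset.sum_sigma']
    refine Finset.sum_bij' (fun p _ => ⟨p.1 \ p.2, p.2⟩) (fun p _ => ⟨p.1 ∪ p.2, p.2⟩)
      ?_ ?_ ?_ ?_ ?_
    · rintro ⟨X, T⟩ h
      simp only [mem_sigma, mem_powerset, clT, mem_filter, clN] at h ⊢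
      obtain ⟨hX, hT, hc⟩ := h
      refine ⟨sdiff_subset.trans hX, ?_⟩
      intro t ht
      rw [mem_filter, mem_sdiff, mem_sdiff]
      exact ⟨⟨hX (hT ht), fun h => h.2 ht⟩, hc t ht⟩
    · rintro ⟨Y, T⟩ h
      simp only [mem_sigma, mem_powerset, clT, mem_filter, clN] at h ⊢
      obtain ⟨hY, hT⟩ := h
      have hT2 : ∀ t ∈ T, t ∈ (Aᶜ : Finset V) ∧ t ∉ Y ∧ ∃ y ∈ Y, K.Adj t y := by
        intro t ht
        have := hT ht
        rw [mem_filter, mem_sdiff] at this
        exact ⟨this.1.1, this.1.2, this.2⟩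
      refine ⟨union_subset hY (fun t ht => (hT2 t ht).1), subset_union_right, ?_⟩
      intro t ht
      obtain ⟨-, -, y, hy, hadj⟩ := hT2 t ht
      refine ⟨y, ?_, hadj⟩
      rw [mem_sdiff, mem_union]
      exact ⟨Or.inl hy, fun hyT => (hT2 y hyT).2.1 hy⟩
    · rintro ⟨X, T⟩ h
      simp only [mem_sigma, mem_powerset, clT, mem_filter] at h
      simp only [Sigma.mk.injEq, heq_eq_eq, and_true]
      exact sdiff_union_of_subset h.2.1
    · rintro ⟨Y, T⟩ h
      simp only [mem_sigma, mem_powerset, clN] at h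
      simp only [Sigma.mk.injEq, heq_eq_eq, and_true]
      apply union_sdiff_cancel_right
      rw [Finset.disjoint_left]
      intro t ht htT
      have := h.2 htT
      rw [mem_filter, mem_sdiff] at this
      exact this.1.2 ht
    · rintro ⟨X, T⟩ h
      rfl
  rw [h1, Finset.sum_filter]
  refine Finset.sum_congr rfl fun Y _ => ?_
  rw [← Finset.sum_mul, cl_alt]
  by_cases hc : Closed K A Y
  · rw [if_pos ((clN_eq_empty A K Y).mpr hc), if_pos hc, one_mul]
  · rw [if_neg (fun h => hc ((clN_eq_empty A K Y).mp h)), if_neg hc, zero_mul]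

lemma cl_top (A : Finset V) (f : SimpleGraph V → Finset V → ℚ) (K : SimpleGraph V)
    (hK : ∀ Y ⊆ (Aᶜ : Finset V), f K Y ≠ 0 →
      ∃ Z ⊆ (Aᶜ : Finset V), Z.Nonempty ∧ Closed K A Z ∧ Disjoint Y Z) :
    clg f K (Aᶜ : Finset V) = 0 := by
  unfold clg
  refine Finset.sum_eq_zero fun T hT => ?_
  simp only [clT, mem_filter, mem_powerset] at hT
  obtain ⟨hT, hc⟩ := hT
  by_contra hne
  have hfne : f K ((Aᶜ : Finset V) \ T) ≠ 0 := right_ne_zero_of_mul hne
  obtain ⟨Z, hZ, ⟨z, hz⟩, hcl, hd⟩ := hK _ sdiff_subset hfne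
  have hzT : z ∈ T := by
    by_contra hzT
    exact Finset.disjoint_left.mp hd (mem_sdiff.mpr ⟨hZ hz, hzT⟩) hz
  obtain ⟨y, hy, hadj⟩ := hc z hzT
  have hyA : y ∉ A := mem_compl.mp (mem_sdiff.mp hy).1
  exact Finset.disjoint_left.mp hd hy (hcl z hz y hyA hadj)

/-- SEP-2 (closed sets). -/
theorem sep_closed (A : Finset V) (G H : SimpleGraph V)
    (hk : ∀ g, Inv A g → ∀ s < (Aᶜ : Finset V).card,
      ∑ X ∈ (Aᶜ : Finset V).powersetCard s, g G X = ∑ X ∈ (Aᶜ : Finset V).powersetCard s, g H X)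
    (f : SimpleGraph V → Finset V → ℚ) (hf : Inv A f)
    (hG : ∀ Y ⊆ (Aᶜ : Finset V), f G Y ≠ 0 →
      ∃ Z ⊆ (Aᶜ : Finset V), Z.Nonempty ∧ Closed G A Z ∧ Disjoint Y Z)
    (hH : ∀ Y ⊆ (Aᶜ : Finset V), f H Y ≠ 0 →
      ∃ Z ⊆ (Aᶜ : Finset V), Z.Nonempty ∧ Closed H A Z ∧ Disjoint Y Z) :
    ∑ Y ∈ (Aᶜ : Finset V).powerset.filter (fun Y => Closed G A Y), f G Y =
      ∑ Y ∈ (Aᶜ : Finset V).powerset.filter (fun Y => Closed H A Y), f H Y := by
  rw [← cl_exchange A f G, ← cl_exchange A f H, Finset.sum_powerset, Finset.sum_powerset,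
    Finset.sum_range_succ, Finset.sum_range_succ, Finset.powersetCard_self, Finset.sum_singleton,
    Finset.sum_singleton, cl_top A f G hG, cl_top A f H hH, add_zero, add_zero]
  refine Finset.sum_congr rfl fun s hs => ?_
  exact hk (clg f) (cl_inv A f hf) s (Finset.mem_range.mp hs)

end Pool.Agent.Sep
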