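import Mathlib
import Pool.Agent.Sep.Defs

/-!
Gluing isomorphisms of the components.
-/

set_option autoImplicit false

namespace Pool.Agent.Sep

open Finset Classical

universe u

variable {V : Type u} [Fintype V]

namespace GlueAux

lemma mem_comp {K : SimpleGraph V} {Y : Finset V} {u v : V} :
    u ∈ comp K Y v ↔ u ∈ Y ∧ (res K Y).Reachable v u := by
  rw [comp, mem_filter]

lemma self_mem_comp {K : SimpleGraph V} {Y : Finset V} {v : V} (hv : v ∈ Y) : v ∈ comp K Y v :=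
  mem_comp.mpr ⟨hv, SimpleGraph.Reachable.refl v⟩

lemma comp_eq_of_mem {K : SimpleGraph V} {Y : Finset V} {u v : V} (h : u ∈ comp K Y v) :
    comp K Y u = comp K Y v := by
  obtain ⟨_, h1⟩ := mem_comp.mp h
  ext x
  rw [mem_comp, mem_comp]
  exact and_congr Iff.rfl ⟨fun h2 => h1.trans h2, fun h2 => h1.symm.trans h2⟩

lemma comp_eq_of_adj {K : SimpleGraph V} {Y : Finset V} {u v : V} (hu : u ∈ Y) (hv : v ∈ Y)
    (h : K.Adj u v) : comp K Y u = comp K Y v := by
  apply comp_eq_of_mem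
  rw [mem_comp]
  have h1 : (res K Y).Adj v u := ⟨h.symm, hv, hu⟩
  exact ⟨hu, h1.reachable⟩

lemma comp_mem_comps {K : SimpleGraph V} {Y : Finset V} {v : V} (hv : v ∈ Y) :
    comp K Y v ∈ comps K Y := mem_image_of_mem _ hv

lemma comp_eq_of_mem_comps {K : SimpleGraph V} {Y D : Finset V} (hD : D ∈ comps K Y) {v : V}
    (hv : v ∈ D) : comp K Y v = D := by
  obtain ⟨u, _, rfl⟩ := mem_image.mp hD
  exact comp_eq_of_mem hv

lemma subset_of_mem_comps {K : SimpleGraph V} {Y D : Finset V} (hD : D ∈ comps K Y) : D ⊆ Y := by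
  obtain ⟨u, _, rfl⟩ := mem_image.mp hD
  exact filter_subset _ _

end GlueAux

/-- Two finsets with maps to the same type and fibres of the same size. -/
lemma exists_fibre_bij {α β T : Type*} (S : Finset α) (S' : Finset β) (t : α → T)
    (t' : β → T) (h : ∀ τ, (S.filter (fun a => t a = τ)).card = (S'.filter (fun b => t' b = τ)).card) :
    ∃ e : {a // a ∈ S} ≃ {b // b ∈ S'}, ∀ a, t' (e a).1 = t a.1 := by
  have hfib : ∀ τ : T, Nonempty ({a : {a // a ∈ S} // t a.1 = τ} ≃ {b : {b // b ∈ S'} // t' b.1 = τ}) := by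
    intro τ
    have e1 : {a : {a // a ∈ S} // t a.1 = τ} ≃ {a // a ∈ S.filter (fun a => t a = τ)} :=
      { toFun := fun a => ⟨a.1.1, mem_filter.mpr ⟨a.1.2, a.2⟩⟩
        invFun := fun a => ⟨⟨a.1, (mem_filter.mp a.2).1⟩, (mem_filter.mp a.2).2⟩
        left_inv := fun a => rfl
        right_inv := fun a => rfl }
    have e2 : {b : {b // b ∈ S'} // t' b.1 = τ} ≃ {b // b ∈ S'.filter (fun b => t' b = τ)} :=
      { toFun := fun a => ⟨a.1.1, mem_filter.mpr ⟨a.1.2, a.2⟩⟩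
        invFun := fun a => ⟨⟨a.1, (mem_filter.mp a.2).1⟩, (mem_filter.mp a.2).2⟩
        left_inv := fun a => rfl
        right_inv := fun a => rfl }
    exact ⟨e1.trans ((Finset.equivOfCardEq (h τ)).trans e2.symm)⟩
  let e := fun τ => (hfib τ).some
  refine ⟨(Equiv.sigmaFiberEquiv (fun a : {a // a ∈ S} => t a.1)).symm.trans
    ((Equiv.sigmaCongrRight e).trans (Equiv.sigmaFiberEquiv (fun b : {b // b ∈ S'} => t' b.1))), ?_⟩
  intro a
  exact (e (t a.1) ⟨a, rfl⟩).2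

open GlueAux in
lemma glue_aux (A : Finset V) (G L : SimpleGraph V) (hGL : ∀ x ∈ A, ∀ y ∈ A, (L.Adj x y ↔ G.Adj x y))
    (h : xv A L Aᶜ = xv A G Aᶜ) :
    ∃ g : Equiv.Perm V, ∀ x y, G.Adj x y ↔ L.Adj (g x) (g y) := by
  obtain ⟨e, he⟩ := exists_fibre_bij (comps G Aᶜ) (comps L Aᶜ) (ty A G) (ty A L)
    (fun τ => by
      have h1 := (congrFun h τ).symm
      simp only [xv] at h1
      convert h1)
  have hρ : ∀ D : {D // D ∈ comps G Aᶜ}, ∃ ρ : Equiv.Perm V, (∀ a ∈ A, ρ a = a) ∧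
      im ρ D.1 = (e D).1 ∧ Agree ρ G L (A ∪ D.1) := by
    intro D
    exact Quotient.exact (he D).symm
  choose ρ hρ1 hρ2 hρ3 using hρ
  have hmem : ∀ v, v ∉ A → comp G Aᶜ v ∈ comps G Aᶜ := fun v hv =>
    comp_mem_comps (mem_compl.mpr hv)
  let g : V → V := fun v => if hv : v ∈ A then v else ρ ⟨comp G Aᶜ v, hmem v hv⟩ v
  have hgA : ∀ v ∈ A, g v = v := fun v hv => by simp only [g, hv, dif_pos]
  have hgn : ∀ v (hv : v ∉ A), g v = ρ ⟨comp G Aᶜ v, hmem v hv⟩ v := fun v hv => by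
    simp only [g, hv, not_false_eq_true, dif_neg]
  have hgm : ∀ v (hv : v ∉ A), g v ∈ (e ⟨comp G Aᶜ v, hmem v hv⟩).1 := by
    intro v hv
    rw [hgn v hv, ← hρ2, apply_mem_im]
    exact self_mem_comp (mem_compl.mpr hv)
  have hgn' : ∀ v, v ∉ A → g v ∉ A := by
    intro v hv
    have h1 := subset_of_mem_comps (e ⟨comp G Aᶜ v, hmem v hv⟩).2 (hgm v hv)
    exact mem_compl.mp h1
  have hgc : ∀ v (hv : v ∉ A), comp L Aᶜ (g v) = (e ⟨comp G Aᶜ v, hmem v hv⟩).1 := by
    intro v hv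
    exact comp_eq_of_mem_comps (e ⟨comp G Aᶜ v, hmem v hv⟩).2 (hgm v hv)
  have hcomp : ∀ u v, u ∉ A → v ∉ A → comp L Aᶜ (g u) = comp L Aᶜ (g v) →
      comp G Aᶜ u = comp G Aᶜ v := by
    intro u v hu hv h1
    rw [hgc u hu, hgc v hv] at h1
    have h2 := e.injective (Subtype.ext h1)
    exact congrArg Subtype.val h2
  have hρeq : ∀ u v (hu : u ∉ A) (hv : v ∉ A), comp G Aᶜ u = comp G Aᶜ v →
      ρ ⟨comp G Aᶜ u, hmem u hu⟩ = ρ ⟨comp G Aᶜ v, hmem v hv⟩ := by
    intro u v hu hv h1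
    congr 1
    exact Subtype.ext h1
  have hinj : Function.Injective g := by
    intro u v huv
    by_cases hu : u ∈ A <;> by_cases hv : v ∈ A
    · rwa [hgA u hu, hgA v hv] at huv
    · exact absurd (huv ▸ (hgA u hu).symm ▸ hu) (hgn' v hv)
    · exact absurd (huv.symm ▸ (hgA v hv).symm ▸ hv) (hgn' u hu)
    · have h1 := hcomp u v hu hv (by rw [huv])
      rw [hgn u hu, hgn v hv, hρeq u v hu hv h1] at huv
      exact (ρ _).injective huv
  refine ⟨Equiv.ofBijective g (Finite.injective_iff_bijective.mp hinj), ?_⟩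
  intro x y
  change G.Adj x y ↔ L.Adj (g x) (g y)
  have key : ∀ x y, x ∈ A → y ∉ A → (G.Adj x y ↔ L.Adj (g x) (g y)) := by
    intro x y hx hy
    rw [hgA x hx, hgn y hy]
    have h1 := hρ3 ⟨comp G Aᶜ y, hmem y hy⟩ x (mem_union_left _ hx) y
      (mem_union_right _ (self_mem_comp (mem_compl.mpr hy)))
    rwa [hρ1 _ x hx] at h1
  by_cases hx : x ∈ A <;> by_cases hy : y ∈ A
  · rw [hgA x hx, hgA y hy]
    exact (hGL x hx y hy).symm
  · exact key x y hx hy
  · rw [G.adj_comm, L.adj_comm]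
    exact key y x hy hx
  · by_cases hc : comp G Aᶜ x = comp G Aᶜ y
    · rw [hgn x hx, hgn y hy, hρeq x y hx hy hc]
      apply hρ3
      · apply mem_union_right
        dsimp only
        rw [← hc]
        exact self_mem_comp (mem_compl.mpr hx)
      · exact mem_union_right _ (self_mem_comp (mem_compl.mpr hy))
    · constructor
      · intro h1
        exact absurd (comp_eq_of_adj (mem_compl.mpr hx) (mem_compl.mpr hy) h1) hc
      · intro h1
        exact absurd (hcomp x y hx hy (comp_eq_of_adj (mem_compl.mpr (hgn' x hx))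
          (mem_compl.mpr (hgn' y hy)) h1)) hc

theorem sep_glue (A : Finset V) (G K : SimpleGraph V) (π : Equiv.Perm V) (hπ : π ∈ II A G K)
    (h : xv A (K.comap π) Aᶜ = xv A G Aᶜ) :
    ∃ g : Equiv.Perm V, ∀ x y, G.Adj x y ↔ K.Adj (g x) (g y) := by
  rw [II, mem_filter] at hπ
  obtain ⟨g, hg⟩ := glue_aux A G (K.comap π) (fun x hx y hy => by
    rw [SimpleGraph.comap_adj]; exact hπ.2.2 x hx y hy) h
  refine ⟨π * g, fun x y => ?_⟩
  rw [hg, SimpleGraph.comap_adj]
  rfl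

end Pool.Agent.Sep
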