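import Mathlib
import Pool.Agent.Sep.Defs

/-!
Kelly lemma for pairs (separator, vertex subset outside the separator).
-/

set_option autoImplicit false

namespace Pool.Agent.Sep

open Finset Classical

universe u

variable {V : Type u} [Fintype V]

/-- Double counting of the pairs (w, X) with w outside A and X. -/
lemma kelly_count (A : Finset V) (K : SimpleGraph V) (g : SimpleGraph V → Finset V → ℚ) (s : ℕ) :
    ∑ w ∈ (Aᶜ : Finset V), ∑ X ∈ ((Aᶜ : Finset V).erase w).powersetCard s, g K X =
      (((Aᶜ : Finset V).card : ℚ) - s) * ∑ X ∈ (Aᶜ : Finset V).powersetCard s, g K X := by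
  have h1 : ∀ w ∈ (Aᶜ : Finset V), ∑ X ∈ ((Aᶜ : Finset V).erase w).powersetCard s, g K X =
      ∑ X ∈ (Aᶜ : Finset V).powersetCard s, if w ∉ X then g K X else 0 := by
    intro w _
    rw [← Finset.sum_filter]
    apply Finset.sum_congr _ (fun _ _ => rfl)
    ext X
    simp only [mem_powersetCard, mem_filter, subset_erase]
    tauto
  rw [Finset.sum_congr rfl h1, Finset.sum_comm, Finset.mul_sum]
  apply Finset.sum_congr rfl
  intro X hX
  rw [mem_powersetCard] at hX
  rw [← Finset.sum_filter, Finset.sum_const, nsmul_eq_mul]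
  congr 1
  have h2 : (Aᶜ : Finset V).filter (fun w => w ∉ X) = (Aᶜ : Finset V) \ X := by
    ext w; simp only [mem_filter, mem_sdiff]
  rw [h2, card_sdiff_of_subset hX.1, Nat.cast_sub (card_le_card hX.1), hX.2]

/-- SEP-1 (Kelly lemma for pairs). -/
theorem sep_kelly (A : Finset V) (G H : SimpleGraph V) (hyp : Hypo A G H)
    (g : SimpleGraph V → Finset V → ℚ) (hg : Inv A g) (s : ℕ) (hs : s < (Aᶜ : Finset V).card) :
    ∑ X ∈ (Aᶜ : Finset V).powersetCard s, g G X = ∑ X ∈ (Aᶜ : Finset V).powersetCard s, g H X := by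
  have hne : (((Aᶜ : Finset V).card : ℚ) - s) ≠ 0 := by
    have : (s : ℚ) < ((Aᶜ : Finset V).card : ℚ) := by exact_mod_cast hs
    exact ne_of_gt (sub_pos.mpr this)
  apply mul_left_cancel₀ hne
  rw [← kelly_count, ← kelly_count]
  apply Finset.sum_congr rfl
  intro w hw
  rw [mem_compl] at hw
  obtain ⟨σ, hσw, hσA, hσ⟩ := hyp w hw
  have himc : im σ ((Aᶜ : Finset V).erase w) = (Aᶜ : Finset V).erase w := by
    ext x
    rw [mem_im_iff_inv, mem_erase, mem_erase, mem_compl, mem_compl, ← mem_im_iff_inv, hσA]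
    have : σ⁻¹ x = w ↔ x = w := by
      rw [Equiv.Perm.inv_eq_iff_eq, hσw]
    rw [Ne, Ne, this]
  apply Finset.sum_bij (fun X _ => im σ X)
  · intro X hX
    rw [mem_powersetCard] at hX ⊢
    refine ⟨?_, by rw [card_im]; exact hX.2⟩
    rw [← himc]
    intro x hx
    rw [mem_im] at hx ⊢
    obtain ⟨y, hy, rfl⟩ := hx
    exact ⟨y, hX.1 hy, rfl⟩
  · intro X _ Y _ h
    exact im_injective σ h
  · intro Y hY
    rw [mem_powersetCard] at hY
    refine ⟨im σ⁻¹ Y, ?_, im_im_inv _ _⟩
    rw [mem_powersetCard]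
    refine ⟨?_, by rw [card_im]; exact hY.2⟩
    intro x hx
    rw [mem_im] at hx
    obtain ⟨y, hy, rfl⟩ := hx
    have := hY.1 hy
    rw [← himc, mem_im_iff_inv] at this
    exact this
  · intro X hX
    rw [mem_powersetCard] at hX
    apply hg G H σ X
    · rw [Finset.disjoint_left]
      intro a ha haX
      have := hX.1 haX
      rw [mem_erase, mem_compl] at this
      exact this.2 ha
    · exact hσA
    · apply hσ.mono
      intro x hx
      rw [mem_union] at hx
      rw [mem_erase]
      refine ⟨?_, mem_univ _⟩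
      rcases hx with hx | hx
      · rintro rfl; exact hw hx
      · exact (mem_erase.mp (hX.1 hx)).1

end Pool.Agent.Sep
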