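import Mathlib
import Pool.Agent.Sep.Defs

/-!
A set with fewer components misses a component; the number of components is the usual one.
-/

set_option autoImplicit false

namespace Pool.Agent.Sep

open Finset Classical

universe u

variable {V : Type u} [Fintype V]

lemma missed_mem_comp {K : SimpleGraph V} {Y : Finset V} {v u : V} :
    u ∈ comp K Y v ↔ u ∈ Y ∧ (res K Y).Reachable v u := by
  simp only [comp, mem_filter]

lemma missed_self {K : SimpleGraph V} {Y : Finset V} {v : V} (h : v ∈ Y) : v ∈ comp K Y v :=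
  missed_mem_comp.mpr ⟨h, SimpleGraph.Reachable.refl v⟩

lemma missed_comp_eq {K : SimpleGraph V} {Y : Finset V} {v u : V}
    (h : (res K Y).Reachable v u) : comp K Y v = comp K Y u := by
  ext x
  rw [missed_mem_comp, missed_mem_comp]
  exact ⟨fun ⟨a, b⟩ => ⟨a, h.symm.trans b⟩, fun ⟨a, b⟩ => ⟨a, h.trans b⟩⟩

lemma missed_reach_mono {K : SimpleGraph V} {Y Z : Finset V} (hYZ : Y ⊆ Z) {v u : V}
    (h : (res K Y).Reachable v u) : (res K Z).Reachable v u := by
  have hle : res K Y ≤ res K Z := by
    intro a b hab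
    exact ⟨hab.1, hYZ hab.2.1, hYZ hab.2.2⟩
  exact h.mono hle

lemma missed_mem_comps {K : SimpleGraph V} {Y Z : Finset V} :
    Z ∈ comps K Y ↔ ∃ v ∈ Y, comp K Y v = Z := by
  simp only [comps, mem_image]

/-- SEP-5 (a set with fewer components misses a component). -/
theorem sep_missed (A : Finset V) (K : SimpleGraph V) (Y : Finset V) (hY : Y ⊆ Aᶜ)
    (h : (comps K Y).card < (comps K Aᶜ).card) :
    ∃ Z ⊆ (Aᶜ : Finset V), Z.Nonempty ∧ Closed K A Z ∧ Disjoint Y Z := by
  by_contra hcon
  push Not at hcon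
  have hmeet : ∀ Z ∈ comps K Aᶜ, ∃ y ∈ Y, comp K Aᶜ y = Z := by
    intro Z hZ
    obtain ⟨v, hv, rfl⟩ := missed_mem_comps.mp hZ
    have h1 : comp K Aᶜ v ⊆ (Aᶜ : Finset V) := fun x hx => (missed_mem_comp.mp hx).1
    have h2 : Closed K A (comp K Aᶜ v) := by
      intro u hu w hw huw
      rw [missed_mem_comp] at hu ⊢
      have hw' : w ∈ (Aᶜ : Finset V) := mem_compl.mpr hw
      refine ⟨hw', hu.2.trans (SimpleGraph.Adj.reachable ?_)⟩
      exact ⟨huw, hu.1, hw'⟩
    have h3 := hcon _ h1 ⟨v, missed_self hv⟩ h2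
    rw [Finset.not_disjoint_iff] at h3
    obtain ⟨y, hy, hyZ⟩ := h3
    exact ⟨y, hy, (missed_comp_eq (missed_mem_comp.mp hyZ).2).symm⟩
  obtain ⟨Z0, hZ0⟩ := Finset.card_pos.mp (lt_of_le_of_lt (Nat.zero_le _) h)
  obtain ⟨v0, _, _⟩ := missed_mem_comps.mp hZ0
  haveI : Nonempty V := ⟨v0⟩
  choose! f hf hf' using hmeet
  apply absurd h
  rw [not_lt]
  apply Finset.card_le_card_of_injOn (fun Z => comp K Y (f Z))
  · intro Z hZ
    exact missed_mem_comps.mpr ⟨f Z, hf Z hZ, rfl⟩
  · intro Z hZ Z' hZ' hE
    dsimp only at hE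
    have h1 : f Z' ∈ comp K Y (f Z) := by
      rw [hE]; exact missed_self (hf Z' hZ')
    have h2 := missed_reach_mono hY (missed_mem_comp.mp h1).2
    rw [← hf' Z hZ, ← hf' Z' hZ']
    exact missed_comp_eq h2

lemma missed_reach_iff {K : SimpleGraph V} {Y : Finset V} (u v : (Y : Set V)) :
    (K.induce (Y : Set V)).Reachable u v ↔ (res K Y).Reachable (u : V) (v : V) := by
  constructor
  · intro h
    let φ : K.induce (Y : Set V) →g res K Y :=
      { toFun := fun x => (x : V)
        map_rel' := by
          intro a b hab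
          exact ⟨hab, a.2, b.2⟩ }
    exact h.map φ
  · rintro ⟨p⟩
    have key : ∀ (a b : V) (_ : (res K Y).Walk a b) (ha : a ∈ (Y : Set V)) (hb : b ∈ (Y : Set V)),
        (K.induce (Y : Set V)).Reachable ⟨a, ha⟩ ⟨b, hb⟩ := by
      intro a b p
      induction p with
      | nil => intro _ _; exact SimpleGraph.Reachable.refl _
      | cons h _ ih =>
        intro ha hb
        have hw := h.2.2
        refine SimpleGraph.Reachable.trans (SimpleGraph.Adj.reachable ?_) (ih hw hb)
        exact h.1
    exact key _ _ p u.2 v.2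

/-- SEP-5, second part. -/
theorem sep_card_comps (K : SimpleGraph V) (Y : Finset V) :
    (comps K Y).card = Nat.card (K.induce (Y : Set V)).ConnectedComponent := by
  let F : (K.induce (Y : Set V)).ConnectedComponent → Finset V :=
    SimpleGraph.ConnectedComponent.lift (fun v => comp K Y (v : V)) (by
      intro v w p _
      exact missed_comp_eq ((missed_reach_iff v w).mp ⟨p⟩))
  have hinj : Function.Injective F := by
    intro c d
    induction c using SimpleGraph.ConnectedComponent.ind with | _ v => ?_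
    induction d using SimpleGraph.ConnectedComponent.ind with | _ w => ?_
    intro hE
    have hE' : comp K Y (v : V) = comp K Y (w : V) := hE
    rw [SimpleGraph.ConnectedComponent.eq, missed_reach_iff]
    have : (w : V) ∈ comp K Y (v : V) := by
      rw [hE']; exact missed_self w.2
    exact (missed_mem_comp.mp this).2
  have hrange : Set.range F = ((comps K Y : Finset (Finset V)) : Set (Finset V)) := by
    ext Z
    rw [Set.mem_range, Finset.mem_coe, missed_mem_comps]
    constructor
    · rintro ⟨c, rfl⟩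
      induction c using SimpleGraph.ConnectedComponent.ind with | _ v => ?_
      exact ⟨v, v.2, rfl⟩
    · rintro ⟨v, hv, rfl⟩
      exact ⟨(K.induce (Y : Set V)).connectedComponentMk ⟨v, hv⟩, rfl⟩
  rw [← Nat.card_range_of_injective hinj, hrange]
  simp

end Pool.Agent.Sep
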