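import Mathlib
import Pool.Agent.Sep.Defs

/-!
Components are natural, and the counting functions are invariants.
-/

set_option autoImplicit false

namespace Pool.Agent.Sep

open Finset Classical

universe u

variable {V : Type u} [Fintype V]

omit [Fintype V] in
/-- `σ` as an isomorphism of the restricted graphs. -/
def resIso (K L : SimpleGraph V) (σ : Equiv.Perm V) (Y : Finset V) (h : Agree σ K L Y) :
    res K Y ≃g res L (im σ Y) where
  toEquiv := σ
  map_rel_iff' := by
    intro a b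
    constructor
    · rintro ⟨h1, h2, h3⟩
      have ha : a ∈ Y := apply_mem_im.mp h2
      have hb : b ∈ Y := apply_mem_im.mp h3
      exact ⟨(h a ha b hb).mpr h1, ha, hb⟩
    · rintro ⟨h1, h2, h3⟩
      exact ⟨(h a h2 b h3).mp h1, apply_mem_im.mpr h2, apply_mem_im.mpr h3⟩

lemma comp_im (K L : SimpleGraph V) (σ : Equiv.Perm V) (Y : Finset V) (h : Agree σ K L Y) (v : V) :
    comp L (im σ Y) (σ v) = im σ (comp K Y v) := by
  ext x
  obtain ⟨y, rfl⟩ := σ.surjective x
  rw [apply_mem_im, comp, comp, mem_filter, mem_filter, apply_mem_im]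
  exact and_congr Iff.rfl (resIso K L σ Y h).reachable_iff

theorem sep_comps_im (K L : SimpleGraph V) (σ : Equiv.Perm V) (Y : Finset V)
    (h : Agree σ K L Y) : comps L (im σ Y) = (comps K Y).image (im σ) := by
  ext D
  simp only [comps, mem_image, mem_im]
  constructor
  · rintro ⟨_, ⟨v, hv, rfl⟩, rfl⟩
    exact ⟨_, ⟨v, hv, rfl⟩, (comp_im K L σ Y h v).symm⟩
  · rintro ⟨_, ⟨v, hv, rfl⟩, rfl⟩
    exact ⟨σ v, ⟨v, hv, rfl⟩, comp_im K L σ Y h v⟩

lemma comp_subset (K : SimpleGraph V) (Y : Finset V) (v : V) : comp K Y v ⊆ Y := filter_subset _ _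

lemma subset_of_mem_comps {K : SimpleGraph V} {Y D : Finset V} (h : D ∈ comps K Y) : D ⊆ Y := by
  obtain ⟨v, _, rfl⟩ := mem_image.mp h
  exact comp_subset _ _ _

omit [Fintype V] in
/-- the part of `σ` on `A` -/
lemma exists_split (A : Finset V) (σ : Equiv.Perm V) (hσ : im σ A = A) :
    ∃ α : Equiv.Perm V, (∀ v ∈ A, α v = σ v) ∧ ∀ v, v ∉ A → α v = v := by
  have h : ∀ x, σ x ∈ A ↔ x ∈ A := by
    intro x
    constructor
    · intro hx
      rw [← hσ] at hx
      exact apply_mem_im.mp hx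
    · intro hx
      rw [← hσ]
      exact apply_mem_im.mpr hx
  refine ⟨Equiv.Perm.ofSubtype (σ.subtypePerm (p := fun x => x ∈ A) (fun x => (h x))), ?_, ?_⟩
  · intro v hv
    rw [Equiv.Perm.ofSubtype_apply_of_mem _ hv]
    rfl
  · intro v hv
    exact Equiv.Perm.ofSubtype_apply_of_not_mem _ hv

/-- transport of the vector of types -/
lemma xv_transport (A : Finset V) (K L : SimpleGraph V) (σ π π' α : Equiv.Perm V) (Y : Finset V)
    (hY : Disjoint A Y) (hσ : im σ A = A) (hag : Agree σ K L (A ∪ Y))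
    (hα : ∀ v ∈ A, α v = σ v) (hα' : ∀ v, v ∉ A → α v = v)
    (hπ : ∀ v, v ∉ A → π v = v) (hπ' : π' = α * π) :
    xv A (L.comap π') (im σ Y) = xv A (K.comap π) Y := by
  have hAY : ∀ x ∈ Y, x ∉ A := fun x hx hA => (Finset.disjoint_left.mp hY) hA hx
  have hσA : ∀ x, σ x ∈ A ↔ x ∈ A := by
    intro x
    constructor
    · intro hx
      rw [← hσ] at hx
      exact apply_mem_im.mp hx
    · intro hx
      rw [← hσ]
      exact apply_mem_im.mpr hx
  have hπA : ∀ x, π x ∈ A ↔ x ∈ A := by
    intro x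
    constructor
    · intro hx
      by_contra hxA
      rw [hπ x hxA] at hx
      exact hxA hx
    · intro hx
      by_contra hxA
      have h1 := hπ _ hxA
      exact hxA (by rw [π.injective h1]; exact hx)
  -- agreement of the twisted graphs through σ on Y
  have hag' : Agree σ (K.comap π) (L.comap π') Y := by
    intro x hx y hy
    simp only [SimpleGraph.comap_adj]
    have e : ∀ x ∈ Y, π x = x ∧ π' (σ x) = σ x := by
      intro x hx
      refine ⟨hπ x (hAY x hx), ?_⟩
      have h1 : σ x ∉ A := fun h => hAY x hx ((hσA x).mp h)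
      rw [hπ', Equiv.Perm.mul_apply, hπ _ h1, hα' _ h1]
    rw [(e x hx).1, (e y hy).1, (e x hx).2, (e y hy).2]
    exact hag x (mem_union_right _ hx) y (mem_union_right _ hy)
  funext τ
  rw [xv, xv, sep_comps_im _ _ σ Y hag', filter_image, card_image_of_injective _ (im_injective σ)]
  congr 1
  apply filter_congr
  intro D hD
  have hDY := subset_of_mem_comps hD
  have key : ty A (L.comap π') (im σ D) = ty A (K.comap π) D := by
    symm
    apply Quotient.sound
    refine ⟨α⁻¹ * σ, ?_, ?_, ?_⟩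
    · intro a ha
      rw [Equiv.Perm.mul_apply, Equiv.Perm.inv_eq_iff_eq, hα a ha]
    · dsimp only
      ext x
      rw [im_mul]
      have h1 : ∀ z ∈ im σ D, α z = z := by
        intro z hz
        obtain ⟨y, hy, rfl⟩ := mem_im.mp hz
        exact hα' _ (fun h => hAY y (hDY hy) ((hσA y).mp h))
      constructor
      · intro hx
        obtain ⟨y, hy, rfl⟩ := mem_im.mp hx
        have h2 : α⁻¹ y = y := by rw [Equiv.Perm.inv_eq_iff_eq]; exact (h1 y hy).symm
        rwa [h2]
      · intro hx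
        rw [mem_im]
        exact ⟨x, hx, by rw [Equiv.Perm.inv_eq_iff_eq]; exact (h1 x hx).symm⟩
    · dsimp only
      intro x hx y hy
      simp only [SimpleGraph.comap_adj]
      have e : ∀ z ∈ A ∪ D, π z ∈ A ∪ D ∧ π' ((α⁻¹ * σ) z) = σ (π z) := by
        intro z hz
        rcases mem_union.mp hz with hz | hz
        · refine ⟨mem_union_left _ ((hπA z).mpr hz), ?_⟩
          have h1 : (α⁻¹ * σ) z = z := by
            rw [Equiv.Perm.mul_apply, Equiv.Perm.inv_eq_iff_eq, hα z hz]
          rw [h1, hπ', Equiv.Perm.mul_apply, hα _ ((hπA z).mpr hz)]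
        · have hzA := hAY z (hDY hz)
          have hσz : σ z ∉ A := fun h => hzA ((hσA z).mp h)
          refine ⟨mem_union_right _ (by rw [hπ z hzA]; exact hz), ?_⟩
          have h1 : (α⁻¹ * σ) z = σ z := by
            rw [Equiv.Perm.mul_apply, Equiv.Perm.inv_eq_iff_eq, hα' _ hσz]
          rw [h1, hπ', Equiv.Perm.mul_apply, hπ _ hσz, hα' _ hσz, hπ z hzA]
      rw [(e x hx).2, (e y hy).2]
      exact hag.mono (union_subset_union_right hDY) _ (e x hx).1 _ (e y hy).1
  rw [key]

theorem sep_inv (A : Finset V) (G : SimpleGraph V) (N : Ty A → ℕ) :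
    Inv A (fun K Y => (((II A G K).filter (fun π : Equiv.Perm V => xv A (K.comap π) Y = N)).card : ℚ)) := by
  intro K L σ Y hY hσ hag
  obtain ⟨α, hα, hα'⟩ := exists_split A σ hσ
  have hσA : ∀ x, σ x ∈ A ↔ x ∈ A := by
    intro x
    constructor
    · intro hx
      rw [← hσ] at hx
      exact apply_mem_im.mp hx
    · intro hx
      rw [← hσ]
      exact apply_mem_im.mpr hx
  have hfixA : ∀ (π : Equiv.Perm V), (∀ v, v ∉ A → π v = v) → ∀ x, π x ∈ A ↔ x ∈ A := by
    intro π hπ x
    constructor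
    · intro hx
      by_contra hxA
      rw [hπ x hxA] at hx
      exact hxA hx
    · intro hx
      by_contra hxA
      have h1 := hπ _ hxA
      exact hxA (by rw [π.injective h1]; exact hx)
  dsimp only
  congr 1
  apply card_bij (fun π _ => α * π)
  · intro π hπ
    rw [mem_filter, II, mem_filter] at hπ ⊢
    obtain ⟨⟨_, h1, h2⟩, h3⟩ := hπ
    refine ⟨⟨mem_univ _, ?_, ?_⟩, ?_⟩
    · intro v hv
      rw [Equiv.Perm.mul_apply, h1 v hv, hα' v hv]
    · intro x hx y hy
      have hx' := (hfixA π h1 x).mpr hx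
      have hy' := (hfixA π h1 y).mpr hy
      rw [Equiv.Perm.mul_apply, Equiv.Perm.mul_apply, hα _ hx', hα _ hy',
        ← hag _ (mem_union_left _ hx') _ (mem_union_left _ hy')]
      exact h2 x hx y hy
    · rw [← h3]
      exact xv_transport A K L σ π _ α Y hY hσ hag hα hα' h1 rfl
  · intro π _ π' _ h
    exact mul_left_cancel h
  · intro π' hπ'
    rw [mem_filter, II, mem_filter] at hπ'
    obtain ⟨⟨_, h1, h2⟩, h3⟩ := hπ'
    have hπ0 : ∀ v, v ∉ A → (α⁻¹ * π') v = v := by
      intro v hv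
      rw [Equiv.Perm.mul_apply, h1 v hv, Equiv.Perm.inv_eq_iff_eq, hα' v hv]
    refine ⟨α⁻¹ * π', ?_, by simp⟩
    rw [mem_filter, II, mem_filter]
    refine ⟨⟨mem_univ _, hπ0, ?_⟩, ?_⟩
    · intro x hx y hy
      have hx' := (hfixA _ hπ0 x).mpr hx
      have hy' := (hfixA _ hπ0 y).mpr hy
      rw [hag _ (mem_union_left _ hx') _ (mem_union_left _ hy'), ← hα _ hx', ← hα _ hy']
      rw [← Equiv.Perm.mul_apply, ← Equiv.Perm.mul_apply, mul_inv_cancel_left]
      exact h2 x hx y hy
    · rw [← h3]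
      symm
      exact xv_transport A K L σ _ _ α Y hY hσ hag hα hα' hπ0 (by simp)

end Pool.Agent.Sep
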