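import Mathlib
import Pool.Agent.Sep.Defs

/-!
SEP-6: the type vectors of a graph twisted by a permutation of the separator.
-/

set_option autoImplicit false

namespace Pool.Agent.Sep

open Finset Classical

universe u

lemma twist_prod_fibres {α β M : Type*} [CommMonoid M] [Fintype β] (φ : ℕ → M) (h0 : φ 0 = 1)
    (C : Finset α) (g : α → β) :
    ∏ τ, φ (C.filter (fun D => g D = τ)).card =
      ∏ S ∈ C.image (fun D => C.filter (fun E => g E = g D)), φ S.card := by
  have h1 : ∏ τ ∈ C.image g, φ (C.filter (fun D => g D = τ)).card =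
      ∏ τ, φ (C.filter (fun D => g D = τ)).card := by
    refine Finset.prod_subset (Finset.subset_univ _) fun τ _ hτ => ?_
    have h2 : C.filter (fun D => g D = τ) = ∅ := by
      refine Finset.filter_eq_empty_iff.2 fun D hD h3 => hτ ?_
      exact Finset.mem_image.2 ⟨D, hD, h3⟩
    rw [h2, Finset.card_empty, h0]
  have h3 : C.image (fun D => C.filter (fun E => g E = g D)) =
      (C.image g).image (fun τ => C.filter (fun E => g E = τ)) := by
    rw [Finset.image_image]
    rfl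
  rw [← h1, h3]
  symm
  refine Finset.prod_image ?_
  intro τ hτ τ' _ h4
  obtain ⟨D, hD, rfl⟩ := Finset.mem_image.1 (Finset.mem_coe.1 hτ)
  have h5 : D ∈ C.filter (fun E => g E = g D) := Finset.mem_filter.2 ⟨hD, rfl⟩
  have h6 : D ∈ C.filter (fun E => g E = τ') := by
    have h7 : C.filter (fun E => g E = g D) = C.filter (fun E => g E = τ') := h4
    rw [← h7]
    exact h5
  exact (Finset.mem_filter.1 h6).2

lemma twist_sum_fibres {α β : Type*} [Fintype β] (φ : ℕ → ℕ) (h0 : φ 0 = 0)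
    (C : Finset α) (g : α → β) :
    ∑ τ, φ (C.filter (fun D => g D = τ)).card =
      ∑ S ∈ C.image (fun D => C.filter (fun E => g E = g D)), φ S.card := by
  have h := twist_prod_fibres (M := Multiplicative ℕ) (fun n => Multiplicative.ofAdd (φ n))
    (by rw [h0]; rfl) C g
  exact h

lemma twist_classes {α β γ : Type*} (C : Finset α) (g : α → β) (g' : α → γ)
    (h : ∀ D ∈ C, ∀ E ∈ C, (g D = g E ↔ g' D = g' E)) :
    C.image (fun D => C.filter (fun E => g E = g D)) =
      C.image (fun D => C.filter (fun E => g' E = g' D)) := by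
  refine Finset.image_congr fun D hD => ?_
  refine Finset.filter_congr fun E hE => ?_
  exact h E hE D hD

variable {V : Type u} [Fintype V]

omit [Fintype V] in
lemma twist_map_mem {A : Finset V} {π : Equiv.Perm V} (hπ : ∀ v, v ∉ A → π v = v) {x : V}
    (hx : x ∈ A) : π x ∈ A := by
  by_contra h
  have h1 : π x = x := π.injective (hπ _ h)
  rw [h1] at h
  exact h hx

omit [Fintype V] in
lemma twist_ty_mp {A : Finset V} (K : SimpleGraph V) {π : Equiv.Perm V}
    (hπ : ∀ v, v ∉ A → π v = v) {D E : Finset V} (hD : ∀ x ∈ D, x ∉ A) (hE : ∀ x ∈ E, x ∉ A)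
    (h : ty A K D = ty A K E) : ty A (K.comap π) D = ty A (K.comap π) E := by
  obtain ⟨ρ, h1, h2, h3⟩ := Quotient.exact h
  dsimp only at h2 h3
  refine Quotient.sound ⟨ρ, h1, h2, ?_⟩
  dsimp only
  have hπm : ∀ x ∈ A ∪ D, π x ∈ A ∪ D := by
    intro x hx
    rcases Finset.mem_union.1 hx with hx | hx
    · exact Finset.mem_union_left _ (twist_map_mem hπ hx)
    · rw [hπ x (hD x hx)]
      exact Finset.mem_union_right _ hx
  have hcomm : ∀ x ∈ A ∪ D, ρ (π x) = π (ρ x) := by
    intro x hx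
    rcases Finset.mem_union.1 hx with hx | hx
    · rw [h1 x hx, h1 _ (twist_map_mem hπ hx)]
    · have h4 : ρ x ∈ E := by
        rw [← h2]
        exact apply_mem_im.2 hx
      rw [hπ x (hD x hx), hπ _ (hE _ h4)]
  intro x hx y hy
  rw [SimpleGraph.comap_adj, SimpleGraph.comap_adj, ← hcomm x hx, ← hcomm y hy]
  exact h3 _ (hπm x hx) _ (hπm y hy)

omit [Fintype V] in
lemma twist_ty_iff {A : Finset V} (K : SimpleGraph V) {π : Equiv.Perm V}
    (hπ : ∀ v, v ∉ A → π v = v) {D E : Finset V} (hD : ∀ x ∈ D, x ∉ A) (hE : ∀ x ∈ E, x ∉ A) :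
    ty A (K.comap π) D = ty A (K.comap π) E ↔ ty A K D = ty A K E := by
  refine ⟨fun h => ?_, twist_ty_mp K hπ hD hE⟩
  have hπ' : ∀ v, v ∉ A → π⁻¹ v = v := fun v hv => by
    rw [Equiv.Perm.inv_eq_iff_eq, hπ v hv]
  have h1 := twist_ty_mp (K.comap π) hπ' hD hE h
  have h2 : (K.comap π).comap (π⁻¹ : Equiv.Perm V) = K := by
    ext x y
    rw [SimpleGraph.comap_adj, SimpleGraph.comap_adj]
    simp
  rw [h2] at h1
  exact h1

lemma twist_comps (A : Finset V) (K : SimpleGraph V) (π : Equiv.Perm V)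
    (hπ : ∀ v, v ∉ A → π v = v) : comps (K.comap π) Aᶜ = comps K Aᶜ := by
  have hres : res (K.comap π) Aᶜ = res K Aᶜ := by
    ext x y
    show ((K.comap π).Adj x y ∧ x ∈ Aᶜ ∧ y ∈ Aᶜ) ↔ (K.Adj x y ∧ x ∈ Aᶜ ∧ y ∈ Aᶜ)
    constructor
    · rintro ⟨h1, h2, h3⟩
      rw [SimpleGraph.comap_adj, hπ x (Finset.mem_compl.1 h2), hπ y (Finset.mem_compl.1 h3)] at h1
      exact ⟨h1, h2, h3⟩
    · rintro ⟨h1, h2, h3⟩
      refine ⟨?_, h2, h3⟩
      rw [SimpleGraph.comap_adj, hπ x (Finset.mem_compl.1 h2), hπ y (Finset.mem_compl.1 h3)]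
      exact h1
  have hcomp : comp (K.comap π) Aᶜ = comp K Aᶜ := by
    funext v
    unfold comp
    rw [hres]
  unfold comps
  rw [hcomp]

lemma twist_comps_sub {A : Finset V} {K : SimpleGraph V} {D : Finset V}
    (hD : D ∈ comps K Aᶜ) : ∀ x ∈ D, x ∉ A := by
  obtain ⟨v, _, rfl⟩ := Finset.mem_image.1 hD
  intro x hx
  exact Finset.mem_compl.1 (Finset.mem_filter.1 hx).1

/-- SEP-6 (the vectors of `K` twisted by an isomorphism `G[A] → K[A]`). -/
theorem sep_twist (A : Finset V) (K : SimpleGraph V) (π : Equiv.Perm V)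
    (hπ : ∀ v, v ∉ A → π v = v) :
    comps (K.comap π) Aᶜ = comps K Aᶜ ∧
    ∏ τ, (xv A (K.comap π) Aᶜ τ).factorial = ∏ τ, (xv A K Aᶜ τ).factorial ∧
    ∑ τ, (xv A (K.comap π) Aᶜ τ).choose 2 = ∑ τ, (xv A K Aᶜ τ).choose 2 := by
  have hc := twist_comps A K π hπ
  have hcl := twist_classes (comps K Aᶜ) (ty A (K.comap π)) (ty A K)
    (fun D hD E hE => twist_ty_iff K hπ (twist_comps_sub hD) (twist_comps_sub hE))
  refine ⟨hc, ?_, ?_⟩
  · unfold xv
    rw [hc]
    have e1 := twist_prod_fibres Nat.factorial Nat.factorial_zero (comps K Aᶜ)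
      (ty A (K.comap π))
    have e2 := twist_prod_fibres Nat.factorial Nat.factorial_zero (comps K Aᶜ) (ty A K)
    rw [hcl] at e1
    convert e1.trans e2.symm
  · unfold xv
    rw [hc]
    have e1 := twist_sum_fibres (fun n => n.choose 2) rfl (comps K Aᶜ) (ty A (K.comap π))
    have e2 := twist_sum_fibres (fun n => n.choose 2) rfl (comps K Aᶜ) (ty A K)
    rw [hcl] at e1
    convert e1.trans e2.symm

end Pool.Agent.Sep
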