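import Mathlib
import Pool.Agent.Sep.Defs

/-!
SEP-7: the other graph minus the separator is disconnected, too.
-/

set_option autoImplicit false

namespace Pool.Agent.Sep

open Finset Classical

universe u

variable {V : Type u} [Fintype V]

omit [Fintype V] in
lemma tw_res_mono (K : SimpleGraph V) {X Y : Finset V} (h : X ⊆ Y) : res K X ≤ res K Y := by
  intro x y hxy
  exact ⟨hxy.1, h hxy.2.1, h hxy.2.2⟩

lemma tw_card_le_one (K : SimpleGraph V) (Y : Finset V) :
    (comps K Y).card ≤ 1 ↔ ∀ u ∈ Y, ∀ v ∈ Y, (res K Y).Reachable u v := by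
  constructor
  · intro h u hu v hv
    rw [Finset.card_le_one] at h
    have h1 := h (comp K Y u) (mem_image_of_mem _ hu) (comp K Y v) (mem_image_of_mem _ hv)
    have h2 : v ∈ comp K Y v := by
      simp only [comp, mem_filter]
      exact ⟨hv, SimpleGraph.Reachable.refl v⟩
    rw [← h1] at h2
    simp only [comp, mem_filter] at h2
    exact h2.2
  · intro h
    rw [Finset.card_le_one]
    intro C hC D hD
    obtain ⟨u, hu, rfl⟩ := mem_image.mp hC
    obtain ⟨v, hv, rfl⟩ := mem_image.mp hD
    ext x
    simp only [comp, mem_filter]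
    constructor
    · rintro ⟨hx, -⟩
      exact ⟨hx, h v hv x hx⟩
    · rintro ⟨hx, -⟩
      exact ⟨hx, h u hu x hx⟩

/-- Whether there is an edge inside `X`. -/
noncomputable def twg (K : SimpleGraph V) (X : Finset V) : ℚ :=
  if ∃ x ∈ X, ∃ y ∈ X, K.Adj x y then 1 else 0

omit [Fintype V] in
lemma twg_im (K L : SimpleGraph V) (σ : Equiv.Perm V) (X : Finset V) (h : Agree σ K L X) :
    twg K X = twg L (im σ X) := by
  unfold twg
  congr 1
  apply propext
  constructor
  · rintro ⟨x, hx, y, hy, hadj⟩
    exact ⟨σ x, apply_mem_im.mpr hx, σ y, apply_mem_im.mpr hy, (h x hx y hy).mp hadj⟩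
  · rintro ⟨x, hx, y, hy, hadj⟩
    obtain ⟨x', hx', rfl⟩ := mem_im.mp hx
    obtain ⟨y', hy', rfl⟩ := mem_im.mp hy
    exact ⟨x', hx', y', hy', (h x' hx' y' hy').mpr hadj⟩

omit [Fintype V] in
lemma twg_nonneg (K : SimpleGraph V) (X : Finset V) : 0 ≤ twg K X := by
  unfold twg
  split_ifs <;> norm_num

/-- Removing a suitable vertex leaves a connected graph. -/
lemma tw_exists (H : SimpleGraph V) (B : Finset V)
    (hcc : ∀ (K : SimpleGraph V) (Y : Finset V),
      (comps K Y).card = Nat.card (K.induce (Y : Set V)).ConnectedComponent)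
    (hb : 3 ≤ B.card) (hc : (comps H B).card ≤ 1) :
    ∃ w ∈ B, (comps H (B.erase w)).card ≤ 1 := by
  have hne : B.Nonempty := Finset.card_pos.mp (by omega)
  obtain ⟨b₀, hb₀⟩ := hne
  have hfin : Finite (H.induce (B : Set V)).ConnectedComponent := inferInstance
  have hsub : Subsingleton (H.induce (B : Set V)).ConnectedComponent := by
    rw [hcc] at hc
    exact Finite.card_le_one_iff_subsingleton.mp hc
  have hconn : (H.induce (B : Set V)).Connected := by
    have : Nonempty (B : Set V) := ⟨⟨b₀, hb₀⟩⟩
    refine SimpleGraph.Connected.mk ?_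
    intro x y
    exact SimpleGraph.ConnectedComponent.exact (Subsingleton.elim _ _)
  have : Nontrivial (B : Set V) := by
    rw [← Finite.one_lt_card_iff_nontrivial]
    have : Nat.card (B : Set V) = B.card := by
      rw [Nat.card_eq_fintype_card]
      simp
    rw [this]
    omega
  obtain ⟨w, hw⟩ := hconn.exists_connected_induce_compl_singleton_of_finite_nontrivial
  refine ⟨w.1, w.2, ?_⟩
  have e : (H.induce (B : Set V)).induce {w}ᶜ ≃g H.induce ((B.erase w.1 : Finset V) : Set V) :=
    { toFun := fun x => ⟨x.1.1, by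
        have h1 : x.1.1 ∈ B := x.1.2
        have h2 := x.2
        simp only [Set.mem_compl_iff, Set.mem_singleton_iff] at h2
        exact Finset.mem_coe.mpr (mem_erase.mpr ⟨fun h => h2 (Subtype.ext h), h1⟩)⟩
      invFun := fun x => ⟨⟨x.1, by
        exact (mem_erase.mp (Finset.mem_coe.mp x.2)).2⟩, by
        simp only [Set.mem_compl_iff, Set.mem_singleton_iff]
        intro h'
        exact (mem_erase.mp (Finset.mem_coe.mp x.2)).1 (congrArg Subtype.val h')⟩
      left_inv := fun x => rfl
      right_inv := fun x => rfl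
      map_rel_iff' := Iff.rfl }
  rw [e.connected_iff] at hw
  rw [hcc]
  have := hw.preconnected.subsingleton_connectedComponent
  exact Finite.card_le_one_iff_subsingleton.mpr this

/-- SEP-7 (`H - A` is disconnected). -/
theorem sep_two (A : Finset V) (G H : SimpleGraph V) (hyp : Hypo A G H)
    (hk : ∀ g, Inv A g → ∀ s < (Aᶜ : Finset V).card,
      ∑ X ∈ (Aᶜ : Finset V).powersetCard s, g G X = ∑ X ∈ (Aᶜ : Finset V).powersetCard s, g H X)
    (hcomps : ∀ (K L : SimpleGraph V) (σ : Equiv.Perm V) (Y : Finset V),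
      Agree σ K L Y → comps L (im σ Y) = (comps K Y).image (im σ))
    (hcc : ∀ (K : SimpleGraph V) (Y : Finset V),
      (comps K Y).card = Nat.card (K.induce (Y : Set V)).ConnectedComponent)
    (hb : 3 ≤ (Aᶜ : Finset V).card) (hc : 2 ≤ (comps G Aᶜ).card) : 2 ≤ (comps H Aᶜ).card := by
  by_contra hlt
  push Not at hlt
  have hH1 : (comps H Aᶜ).card ≤ 1 := by omega
  obtain ⟨w, hw, hcw⟩ := tw_exists H Aᶜ hcc hb hH1
  have hwA : w ∉ A := mem_compl.mp hw
  obtain ⟨σ, hσw, hσA, hag⟩ := hyp w hwA
  set B : Finset V := Aᶜ with hB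
  -- `σ` maps `B.erase w` to itself
  have himB : im σ B = B := by rw [hB, im_compl, hσA]
  have himY : im σ (B.erase w) = B.erase w := by
    ext x
    rw [mem_im_iff_inv, mem_erase, mem_erase]
    have h1 : σ⁻¹ x = w ↔ x = w := by
      rw [Equiv.Perm.inv_eq_iff_eq, hσw]
    have h2 : σ⁻¹ x ∈ B ↔ x ∈ B := by
      rw [← mem_im_iff_inv, himB]
    rw [Ne, Ne, h1, h2]
  have hagY : Agree σ G H (B.erase w) := hag.mono (erase_subset_erase w (subset_univ B))
  have hGw : (comps G (B.erase w)).card ≤ 1 := by
    have h1 := hcomps G H σ (B.erase w) hagY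
    rw [himY] at h1
    rw [h1, card_image_of_injective _ (im_injective σ)] at hcw
    exact hcw
  rw [tw_card_le_one] at hGw
  -- `w` is isolated in `G[B]`
  have hiso : ∀ y ∈ B, ¬ G.Adj w y := by
    intro y hy hadj
    have hyw : y ≠ w := fun h => G.loopless.irrefl w (h ▸ hadj)
    have hle : (comps G B).card ≤ 1 := by
      rw [tw_card_le_one]
      have hbase : ∀ u ∈ B, (res G B).Reachable u y := by
        intro u hu
        by_cases huw : u = w
        · subst huw
          exact SimpleGraph.Adj.reachable (⟨hadj, hu, hy⟩ : (res G B).Adj u y)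
        · exact (hGw u (mem_erase.mpr ⟨huw, hu⟩) y (mem_erase.mpr ⟨hyw, hy⟩)).mono
            (tw_res_mono G (erase_subset w B))
      intro u hu v hv
      exact (hbase u hu).trans (hbase v hv).symm
    omega
  -- `w` has a neighbour in `H[B]`
  have hnb : ∃ y ∈ B, H.Adj w y := by
    rw [tw_card_le_one] at hH1
    have hcard : 0 < (B.erase w).card := by rw [card_erase_of_mem hw]; omega
    obtain ⟨z, hz⟩ := Finset.card_pos.mp hcard
    rw [mem_erase] at hz
    obtain ⟨p⟩ := hH1 w hw z hz.2
    cases p with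
    | nil => exact absurd rfl hz.1
    | cons h p => exact ⟨_, h.2.2, h.1⟩
  obtain ⟨y, hy, hadj⟩ := hnb
  -- the count
  have hinv : Inv A twg := by
    intro K L τ X _ _ hagr
    exact twg_im K L τ X (hagr.mono subset_union_right)
  have hk2 := hk twg hinv 2 (by omega)
  have hsplit : ∀ K : SimpleGraph V, ∑ X ∈ B.powersetCard 2, twg K X =
      ∑ X ∈ (B.powersetCard 2).filter (fun X => w ∈ X), twg K X +
      ∑ X ∈ (B.powersetCard 2).filter (fun X => ¬ w ∈ X), twg K X := by
    intro K
    rw [Finset.sum_filter_add_sum_filter_not]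
  rw [hsplit G, hsplit H] at hk2
  have heq : ∑ X ∈ (B.powersetCard 2).filter (fun X => ¬ w ∈ X), twg G X =
      ∑ X ∈ (B.powersetCard 2).filter (fun X => ¬ w ∈ X), twg H X := by
    have hmap : ∀ X : Finset V, X ∈ (B.powersetCard 2).filter (fun X => ¬ w ∈ X) ↔
        X ⊆ B.erase w ∧ X.card = 2 := by
      intro X
      rw [mem_filter, mem_powersetCard, subset_erase]
      tauto
    refine Finset.sum_bij' (fun X _ => im σ X) (fun X _ => im σ⁻¹ X) ?_ ?_ ?_ ?_ ?_
    · intro X hX
      rw [hmap] at hX ⊢
      refine ⟨?_, by rw [card_im]; exact hX.2⟩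
      rw [← himY]
      intro x hx
      rw [mem_im_iff_inv] at hx ⊢
      exact hX.1 hx
    · intro X hX
      rw [hmap] at hX ⊢
      refine ⟨?_, by rw [card_im]; exact hX.2⟩
      intro x hx
      rw [mem_im_iff_inv, inv_inv] at hx
      have := hX.1 hx
      rw [← himY] at this
      exact apply_mem_im.mp this
    · intro X _
      exact im_inv_im σ X
    · intro X _
      exact im_im_inv σ X
    · intro X hX
      rw [hmap] at hX
      exact twg_im G H σ X (hagY.mono hX.1)
  have hzero : ∑ X ∈ (B.powersetCard 2).filter (fun X => w ∈ X), twg G X = 0 := by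
    refine Finset.sum_eq_zero fun X hX => ?_
    rw [mem_filter, mem_powersetCard] at hX
    unfold twg
    rw [if_neg]
    rintro ⟨a, ha, b, hb', hab⟩
    have hne : a ≠ b := hab.ne
    have hXab : X = {a, b} := by
      symm
      apply Finset.eq_of_subset_of_card_le
      · intro x hx
        rw [mem_insert, mem_singleton] at hx
        rcases hx with rfl | rfl <;> assumption
      · rw [hX.1.2, card_pair hne]
    have hwX := hX.2
    rw [hXab, mem_insert, mem_singleton] at hwX
    rcases hwX with h | h
    · subst h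
      exact hiso b (hX.1.1 hb') hab
    · subst h
      exact hiso a (hX.1.1 ha) hab.symm
  have hpos : 0 < ∑ X ∈ (B.powersetCard 2).filter (fun X => w ∈ X), twg H X := by
    apply Finset.sum_pos'
    · intro X _
      exact twg_nonneg H X
    · have hwy : w ≠ y := hadj.ne
      refine ⟨{w, y}, ?_, ?_⟩
      · rw [mem_filter, mem_powersetCard]
        refine ⟨⟨?_, card_pair hwy⟩, mem_insert_self w {y}⟩
        intro x hx
        rw [mem_insert, mem_singleton] at hx
        rcases hx with rfl | rfl <;> assumption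
      · unfold twg
        rw [if_pos ⟨w, mem_insert_self w {y}, y, mem_insert_of_mem (mem_singleton_self y), hadj⟩]
        norm_num
  rw [hzero, heq] at hk2
  linarith

end Pool.Agent.Sep
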