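import Mathlib
import Pool.Agent.Sep.Defs
import Pool.Agent.Sep.Natural
import Pool.Agent.Sep.Glue
import Pool.Agent.Sep.Kelly
import Pool.Agent.Sep.Closed
import Pool.Agent.Sep.CardClosed
import Pool.Agent.Sep.Missed
import Pool.Agent.Sep.Twist
import Pool.Agent.Sep.Two
import Pool.Agent.Sep.Abstract

/-!
Assembly of the theorem on separators.
-/

set_option autoImplicit false

namespace Pool.Agent.Sep

open Finset Classical

universe u

variable {V : Type u} [Fintype V]

namespace AsmAux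

omit [Fintype V] in
lemma res_comap (A Y : Finset V) (K : SimpleGraph V) (π : Equiv.Perm V)
    (hπ : ∀ v, v ∉ A → π v = v) (hY : ∀ v ∈ Y, v ∉ A) : res (K.comap π) Y = res K Y := by
  ext x y
  constructor
  · rintro ⟨h1, h2, h3⟩
    rw [SimpleGraph.comap_adj, hπ x (hY x h2), hπ y (hY y h3)] at h1
    exact ⟨h1, h2, h3⟩
  · rintro ⟨h1, h2, h3⟩
    refine ⟨?_, h2, h3⟩
    rw [SimpleGraph.comap_adj, hπ x (hY x h2), hπ y (hY y h3)]
    exact h1

lemma comps_comap (A Y : Finset V) (K : SimpleGraph V) (π : Equiv.Perm V)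
    (hπ : ∀ v, v ∉ A → π v = v) (hY : ∀ v ∈ Y, v ∉ A) : comps (K.comap π) Y = comps K Y := by
  unfold comps
  congr 1
  funext v
  unfold comp
  rw [res_comap A Y K π hπ hY]

omit [Fintype V] in
lemma closed_comap (A Y : Finset V) (K : SimpleGraph V) (π : Equiv.Perm V)
    (hπ : ∀ v, v ∉ A → π v = v) (hY : ∀ v ∈ Y, v ∉ A) :
    Closed (K.comap π) A Y ↔ Closed K A Y := by
  unfold Closed
  constructor
  · intro h u hu v hv huv
    apply h u hu v hv
    rw [SimpleGraph.comap_adj, hπ u (hY u hu), hπ v hv]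
    exact huv
  · intro h u hu v hv huv
    rw [SimpleGraph.comap_adj, hπ u (hY u hu), hπ v hv] at huv
    exact h u hu v hv huv

lemma sum_xv (A : Finset V) (K : SimpleGraph V) (Y : Finset V) :
    ∑ τ, xv A K Y τ = (comps K Y).card := by
  unfold xv
  rw [card_eq_sum_card_fiberwise (f := fun D => ty A K D) (t := univ) (fun _ _ => mem_univ _)]

lemma fix_of_mem_II {A : Finset V} {G K : SimpleGraph V} {π : Equiv.Perm V} (h : π ∈ II A G K) :
    ∀ v, v ∉ A → π v = v := by
  rw [II, mem_filter] at h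
  exact h.2.1

end AsmAux

open AsmAux

/-- equality of the counts -/
lemma count_eq (A : Finset V) (G H : SimpleGraph V) (hyp : Hypo A G H) (N : Ty A → ℕ)
    (hG : ∑ τ, N τ < (comps G Aᶜ).card) (hH : ∑ τ, N τ < (comps H Aᶜ).card) :
    ∑ π ∈ II A G G, ∏ τ, (xv A (G.comap π) Aᶜ τ).choose (N τ) =
      ∑ π ∈ II A G H, ∏ τ, (xv A (H.comap π) Aᶜ τ).choose (N τ) := by
  have hP : ∀ K : SimpleGraph V, ∑ τ, N τ < (comps K Aᶜ).card → ∀ Y ⊆ (Aᶜ : Finset V),
      (((II A G K).filter (fun π : Equiv.Perm V => xv A (K.comap π) Y = N)).card : ℚ) ≠ 0 →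
      ∃ Z ⊆ (Aᶜ : Finset V), Z.Nonempty ∧ Closed K A Z ∧ Disjoint Y Z := by
    intro K hK Y hY hne
    have h1 : ((II A G K).filter (fun π : Equiv.Perm V => xv A (K.comap π) Y = N)).card ≠ 0 := by
      intro h; rw [h] at hne; exact hne (by norm_num)
    obtain ⟨π, hπ⟩ := card_ne_zero.mp h1
    rw [mem_filter] at hπ
    have hπ0 := fix_of_mem_II hπ.1
    apply sep_missed A K Y hY
    rw [← comps_comap A Y K π hπ0 (fun v hv => mem_compl.mp (hY hv)), ← sum_xv A (K.comap π) Y,
      hπ.2]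
    exact hK
  have h1 := sep_closed A G H (fun g hg s hs => sep_kelly A G H hyp g hg s hs) _
    (sep_inv A G N) (hP G hG) (hP H hH)
  have h2 : ∀ K : SimpleGraph V, ∑ Y ∈ (Aᶜ : Finset V).powerset.filter (fun Y => Closed K A Y),
      (((II A G K).filter (fun π : Equiv.Perm V => xv A (K.comap π) Y = N)).card : ℚ) =
      ((∑ π ∈ II A G K, ∏ τ, (xv A (K.comap π) Aᶜ τ).choose (N τ) : ℕ) : ℚ) := by
    intro K
    rw [← Nat.cast_sum]
    congr 1
    simp only [card_filter]
    rw [sum_comm]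
    apply sum_congr rfl
    intro π hπ
    have hπ0 := fix_of_mem_II hπ
    rw [← sep_card_closed A (K.comap π) N, ← card_filter, filter_filter]
    congr 1
    apply filter_congr
    intro Y hY
    rw [closed_comap A Y K π hπ0 (fun v hv => mem_compl.mp ((mem_powerset.mp hY) hv))]
  rw [h2 G, h2 H] at h1
  exact_mod_cast h1

/-- **Theorem B** for two graphs on the same vertex set. -/
theorem recon_perm (A : Finset V) (G H : SimpleGraph V) (q : ℕ) (hb : 3 ≤ (Aᶜ : Finset V).card)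
    (hc : 2 ≤ (comps G Aᶜ).card) (hq : q * (q - 1) < 2 * (comps G Aᶜ).card)
    (hcard : 2 * (II A G G).card * 2 ^ q < 3 ^ q) (hyp : Hypo A G H) :
    ∃ g : Equiv.Perm V, ∀ x y, G.Adj x y ↔ H.Adj (g x) (g y) := by
  have hcH : 2 ≤ (comps H Aᶜ).card :=
    sep_two A G H hyp (fun g hg s hs => sep_kelly A G H hyp g hg s hs)
      (fun K L σ Y => sep_comps_im K L σ Y) (fun K Y => sep_card_comps K Y) hb hc
  have hone : (1 : Equiv.Perm V) ∈ II A G G := by
    rw [II, mem_filter]
    exact ⟨mem_univ _, fun _ _ => rfl, fun _ _ _ _ => Iff.rfl⟩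
  have hprod0 : ∀ (K : SimpleGraph V) (π : Equiv.Perm V),
      ∏ τ, (xv A (K.comap π) Aᶜ τ).choose ((0 : Ty A → ℕ) τ) = 1 := by
    intro K π
    apply prod_eq_one
    intro τ _
    exact Nat.choose_zero_right _
  have hII : (II A G G).card = (II A G H).card := by
    have h1 := count_eq A G H hyp 0 (by simp only [Pi.zero_apply, sum_const_zero]; omega)
      (by simp only [Pi.zero_apply, sum_const_zero]; omega)
    simp only [hprod0, sum_const, smul_eq_mul, mul_one] at h1
    exact h1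
  have hsumxv : ∀ (K : SimpleGraph V) (π : Equiv.Perm V), π ∈ II A G K →
      ∑ τ, xv A (K.comap π) Aᶜ τ = (comps K Aᶜ).card := by
    intro K π hπ
    rw [sum_xv, comps_comap A Aᶜ K π (fix_of_mem_II hπ) (fun v hv => mem_compl.mp hv)]
  have hcc : (comps G Aᶜ).card = (comps H Aᶜ).card := by
    have h1 : ∀ τ : Ty A, ∑ π ∈ II A G G, xv A (G.comap π) Aᶜ τ =
        ∑ π ∈ II A G H, xv A (H.comap π) Aᶜ τ := by
      intro τ
      have hs : ∑ τ', (Pi.single τ 1 : Ty A → ℕ) τ' = 1 := by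
        rw [sum_pi_single']; simp
      have h2 := count_eq A G H hyp (Pi.single τ 1) (by rw [hs]; omega) (by rw [hs]; omega)
      have h3 : ∀ (K : SimpleGraph V) (π : Equiv.Perm V),
          ∏ τ', (xv A (K.comap π) Aᶜ τ').choose ((Pi.single τ 1 : Ty A → ℕ) τ') =
            xv A (K.comap π) Aᶜ τ := by
        intro K π
        rw [prod_eq_single τ]
        · rw [Pi.single_eq_same, Nat.choose_one_right]
        · intro τ' _ hne
          rw [Pi.single_eq_of_ne hne, Nat.choose_zero_right]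
        · intro h; exact absurd (mem_univ _) h
      simp only [h3] at h2
      exact h2
    have h4 : ∑ π ∈ II A G G, ∑ τ, xv A (G.comap π) Aᶜ τ =
        ∑ π ∈ II A G H, ∑ τ, xv A (H.comap π) Aᶜ τ := by
      rw [sum_comm, sum_comm (s := II A G H)]
      exact sum_congr rfl (fun τ _ => h1 τ)
    rw [sum_congr rfl (fun π hπ => hsumxv G π hπ), sum_congr rfl (fun π hπ => hsumxv H π hπ),
      sum_const, sum_const, ← hII, smul_eq_mul, smul_eq_mul] at h4
    exact Nat.eq_of_mul_eq_mul_left (card_pos.mpr ⟨1, hone⟩) h4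
  have htw := fun (K : SimpleGraph V) (π : Equiv.Perm V) (hπ : π ∈ II A G K) =>
    sep_twist A K π (fix_of_mem_II hπ)
  obtain ⟨π, hπ, h⟩ := sep_abstract (T := Ty A) (ι := Equiv.Perm V) (κ := Equiv.Perm V)
    (comps G Aᶜ).card q (II A G G) (II A G H)
    (fun π => xv A (G.comap π) Aᶜ) (fun π => xv A (H.comap π) Aᶜ) hc hq hcard
    (fun π hπ => hsumxv G π hπ) (fun π hπ => by rw [hcc]; exact hsumxv H π hπ)
    (fun N hN => count_eq A G H hyp N hN (by rw [← hcc]; exact hN))
    (fun π hπ π' hπ' => by rw [(htw G π hπ).2.1, (htw G π' hπ').2.1])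
    (fun π hπ π' hπ' => by rw [(htw H π hπ).2.1, (htw H π' hπ').2.1])
    (fun π hπ π' hπ' => by rw [(htw G π hπ).2.2, (htw G π' hπ').2.2])
    (fun π hπ π' hπ' => by rw [(htw H π hπ).2.2, (htw H π' hπ').2.2])
    1 hone
  apply sep_glue A G H π hπ
  rw [h]
  rfl

end Pool.Agent.Sep
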