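import Mathlib
import Pool.Agent.Sep.Defs

/-!
SEP-12: the permutations in `II A G G` are the automorphisms of `G[A]`.
-/

set_option autoImplicit false

namespace Pool.Agent.Sep

open Finset Classical

universe u

variable {V : Type u} [Fintype V]

omit [Fintype V] in
lemma cardII_mem_iff {A : Finset V} {π : Equiv.Perm V} (h : ∀ v, v ∉ A → π v = v) (x : V) :
    π x ∈ (A : Set V) ↔ x ∈ (A : Set V) := by
  rw [mem_coe, mem_coe]
  constructor
  · intro hx
    by_contra hxA
    rw [h x hxA] at hx
    exact hxA hx
  · intro hx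
    by_contra hxA
    have := π.injective (h (π x) hxA)
    rw [this] at hxA
    exact hxA hx

/-- The elements of `II A G G` are the automorphisms of `G[A]`. -/
noncomputable def cardII_equiv (A : Finset V) (G : SimpleGraph V) :
    {π : Equiv.Perm V // π ∈ II A G G} ≃ (G.induce (A : Set V) ≃g G.induce (A : Set V)) where
  toFun p :=
    { toEquiv := p.1.subtypePerm (p := fun x => x ∈ (A : Set V))
        (cardII_mem_iff (mem_filter.mp p.2).2.1)
      map_rel_iff' := by
        rintro ⟨a, ha⟩ ⟨b, hb⟩
        simp only [SimpleGraph.comap_adj, Equiv.Perm.subtypePerm_apply,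
          Function.Embedding.subtype_apply]
        exact (mem_filter.mp p.2).2.2 a ha b hb }
  invFun e := ⟨Equiv.Perm.ofSubtype (p := fun x => x ∈ (A : Set V)) e.toEquiv, by
    refine mem_filter.mpr ⟨mem_univ _, fun v hv => ?_, fun x hx y hy => ?_⟩
    · exact Equiv.Perm.ofSubtype_apply_of_not_mem e.toEquiv (fun h => hv h)
    · rw [Equiv.Perm.ofSubtype_apply_of_mem e.toEquiv (show x ∈ (A : Set V) from hx),
        Equiv.Perm.ofSubtype_apply_of_mem e.toEquiv (show y ∈ (A : Set V) from hy)]
      exact e.map_rel_iff' (a := ⟨x, hx⟩) (b := ⟨y, hy⟩)⟩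
  left_inv p := by
    apply Subtype.ext
    refine Equiv.Perm.ofSubtype_subtypePerm (cardII_mem_iff (mem_filter.mp p.2).2.1)
      fun x hx => ?_
    by_contra hxA
    exact hx ((mem_filter.mp p.2).2.1 x hxA)
  right_inv e := by
    apply RelIso.ext
    rintro ⟨a, ha⟩
    apply Subtype.ext
    simp only [RelIso.coe_fn_mk, Equiv.Perm.subtypePerm_apply]
    exact Equiv.Perm.ofSubtype_apply_of_mem e.toEquiv ha

/-- SEP-12 (automorphisms). -/
theorem sep_card_II (A : Finset V) (G : SimpleGraph V) :
    (II A G G).card = Nat.card (G.induce (A : Set V) ≃g G.induce (A : Set V)) ∧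
      (II A G G).card ≤ A.card.factorial := by
  have h1 : (II A G G).card = Nat.card (G.induce (A : Set V) ≃g G.induce (A : Set V)) := by
    rw [← Nat.card_congr (cardII_equiv A G), Nat.card_eq_fintype_card, Fintype.card_coe]
  refine ⟨h1, ?_⟩
  rw [h1]
  have h2 : Nat.card (G.induce (A : Set V) ≃g G.induce (A : Set V)) ≤
      Nat.card (Equiv.Perm (A : Set V)) :=
    Nat.card_le_card_of_injective (fun e => e.toEquiv)
      (fun e f hef => RelIso.toEquiv_injective hef)
  refine h2.trans (le_of_eq ?_)
  rw [Nat.card_eq_fintype_card, Fintype.card_perm]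
  simp

end Pool.Agent.Sep
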