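import Mathlib
import Pool.Agent.Sep.Assembly
import Pool.Agent.Sep.CardII
import Pool.Agent.Sep.Missed

/-!
The core theorem in relative form: two graphs `G`, `H` with a bijection of their vertices and
isomorphisms `G - w → H - φ(w)` mapping `A` to `φ(A)` for all `w` outside `A`.
-/

set_option autoImplicit false

namespace Pool.Agent.Sep

open Finset Classical

universe u

variable {V W : Type u} [Fintype V] [Fintype W]

omit [Fintype W] in
/-- An isomorphism of vertex-deleted subgraphs as a permutation. -/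
lemma core_exists_perm (f : V ≃ W) (v : V) (ψ : {x : V // x ≠ v} ≃ {y : W // y ≠ f v}) :
    ∃ σ : Equiv.Perm V, σ v = v ∧ ∀ x (hx : x ≠ v), f (σ x) = (ψ ⟨x, hx⟩).1 := by
  let g : V → V := fun x => if hx : x = v then v else f.symm (ψ ⟨x, hx⟩).1
  have hgv : g v = v := by simp [g]
  have hgn : ∀ x (hx : x ≠ v), f (g x) = (ψ ⟨x, hx⟩).1 := by
    intro x hx
    simp only [g, hx, dif_neg, not_false_eq_true, Equiv.apply_symm_apply]
  have hne : ∀ x, x ≠ v → g x ≠ v := by
    intro x hx h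
    have h1 := hgn x hx
    rw [h] at h1
    exact (ψ ⟨x, hx⟩).2 h1.symm
  have hinj : Function.Injective g := by
    intro x y hxy
    by_cases hx : x = v <;> by_cases hy : y = v
    · rw [hx, hy]
    · exact absurd (by rw [← hxy, hx, hgv]) (hne y hy)
    · exact absurd (by rw [hxy, hy, hgv]) (hne x hx)
    · have h1 := hgn x hx
      rw [hxy, hgn y hy] at h1
      have h2 := ψ.injective (Subtype.ext h1)
      exact (congrArg Subtype.val h2).symm
  exact ⟨Equiv.ofBijective g (Finite.injective_iff_bijective.mp hinj), hgv, hgn⟩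

lemma core_two_le_q {q a : ℕ} (ha : 1 ≤ a) (h : 2 ^ (q + 1) * a < 3 ^ q) : 2 ≤ q := by
  by_contra hq
  have : q = 0 ∨ q = 1 := by omega
  rcases this with rfl | rfl
  · norm_num at h; omega
  · norm_num at h; omega

omit [Fintype W] in
/-- `G[A]` has at most `#A !` automorphisms. -/
lemma card_aut_le (G : SimpleGraph V) (A : Set V) :
    Nat.card (G.induce A ≃g G.induce A) ≤ A.ncard.factorial := by
  obtain ⟨A, rfl⟩ : ∃ B : Finset V, (B : Set V) = A := ⟨A.toFinset, by simp⟩
  rw [Set.ncard_coe_finset, ← (sep_card_II A G).1]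
  exact (sep_card_II A G).2

omit [Fintype W] in
/-- **Core theorem**. Let `f` be a bijection of the vertices of `G` and `H` and `A` a set of vertices
of `G`, such that for every `w` outside `A` there is an isomorphism `G - w → H - f(w)` mapping `A`
to `f(A)`. If at least three vertices are outside `A`, `2^(q+1) #Aut(G[A]) < 3^q` and `G - A` has
more than `q (q - 1) / 2` components, then `G` and `H` are isomorphic. -/
theorem core (G : SimpleGraph V) (H : SimpleGraph W) (f : V ≃ W) (A : Set V) (q : ℕ)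
    (hdeck : ∀ w ∉ A, ∃ ψ : {x : V // x ≠ w} ≃ {y : W // y ≠ f w},
      (∀ x y, G.Adj x.1 y.1 ↔ H.Adj (ψ x).1 (ψ y).1) ∧
      ∀ x, x.1 ∈ A ↔ f.symm (ψ x).1 ∈ A)
    (hb : 3 ≤ Aᶜ.ncard)
    (hcard : 2 ^ (q + 1) * Nat.card (G.induce A ≃g G.induce A) < 3 ^ q)
    (hq : q * (q - 1) < 2 * Nat.card (G.induce Aᶜ).ConnectedComponent) :
    ∃ g : V ≃ W, ∀ x y, G.Adj x y ↔ H.Adj (g x) (g y) := by
  obtain ⟨A, rfl⟩ : ∃ B : Finset V, (B : Set V) = A := ⟨A.toFinset, by simp⟩
  rw [← coe_compl, Set.ncard_coe_finset] at hb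
  have hcc : (comps G Aᶜ).card = Nat.card (G.induce ((A : Set V)ᶜ)).ConnectedComponent := by
    rw [sep_card_comps, coe_compl]
  rw [← hcc] at hq
  rw [← (sep_card_II A G).1] at hcard
  have hone : (1 : Equiv.Perm V) ∈ II A G G := by
    rw [II, mem_filter]
    exact ⟨mem_univ _, fun _ _ => rfl, fun _ _ _ _ => Iff.rfl⟩
  have hq2 : 2 ≤ q := core_two_le_q (card_pos.mpr ⟨1, hone⟩) hcard
  have hc : 2 ≤ (comps G Aᶜ).card := by
    have h1 : 2 * 1 ≤ q * (q - 1) := Nat.mul_le_mul hq2 (by omega)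
    omega
  have hyp : Hypo A G (H.comap f) := by
    intro w hw
    obtain ⟨ψ, hψ, hA⟩ := hdeck w (by exact_mod_cast hw)
    obtain ⟨σ, h1, h2⟩ := core_exists_perm f w ψ
    have h3 : ∀ x, x ∈ A ↔ σ x ∈ A := by
      intro x
      by_cases hx : x = w
      · subst hx; rw [h1]
      · have h4 := hA ⟨x, hx⟩
        rw [← h2 x hx, Equiv.symm_apply_apply] at h4
        exact_mod_cast h4
    refine ⟨σ, h1, ?_, ?_⟩
    · ext x
      obtain ⟨y, rfl⟩ := σ.surjective x
      rw [apply_mem_im]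
      exact h3 y
    · intro x hx y hy
      rw [SimpleGraph.comap_adj, h2 x (ne_of_mem_erase hx), h2 y (ne_of_mem_erase hy)]
      exact hψ ⟨x, _⟩ ⟨y, _⟩
  obtain ⟨g, hg⟩ := recon_perm A G (H.comap f) q hb hc hq
    (by rw [pow_succ] at hcard; linarith) hyp
  exact ⟨g.trans f, fun x y => by rw [hg, SimpleGraph.comap_adj]; rfl⟩

end Pool.Agent.Sep
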