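import Mathlib
import Pool.Agent.Sep.Defs

/-!
SEP-10: the separator is recognisable from the degrees.
-/

set_option autoImplicit false

namespace Pool.Agent.Sep

open Finset Classical

universe u

variable {V : Type u} [Fintype V]

namespace Hypo_

/-- neighbours of `x` different from `w` -/
noncomputable def dd (K : SimpleGraph V) (w x : V) : ℕ := ((univ.erase w).filter (K.Adj x)).card

lemma degree_eq (K : SimpleGraph V) (w x : V) :
    K.degree x = dd K w x + if K.Adj x w then 1 else 0 := by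
  have h1 : K.degree x = (univ.filter (K.Adj x)).card := by
    rw [← SimpleGraph.card_neighborFinset_eq_degree]
    congr 1
    ext y
    simp
  have h2 : (univ : Finset V) = insert w (univ.erase w) := by
    rw [insert_erase (mem_univ w)]
  rw [h1, dd]
  conv_lhs => rw [h2]
  rw [filter_insert]
  split_ifs with h
  · rw [card_insert_of_notMem (by simp)]
  · simp

lemma sum_adj (K : SimpleGraph V) (w : V) :
    ∑ x ∈ univ.erase w, (if K.Adj x w then 1 else 0) = K.degree w := by
  rw [sum_boole, degree_eq K w w]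
  simp only [SimpleGraph.irrefl, if_false, add_zero, dd, Nat.cast_id]
  congr 1
  ext y
  simp only [mem_filter, K.adj_comm]

lemma sum_degree (K : SimpleGraph V) (w : V) :
    ∑ x, K.degree x = ∑ x ∈ univ.erase w, dd K w x + 2 * K.degree w := by
  rw [← add_sum_erase univ (fun x => K.degree x) (mem_univ w)]
  have h1 : ∑ x ∈ univ.erase w, K.degree x =
      ∑ x ∈ univ.erase w, dd K w x + K.degree w := by
    rw [← sum_adj K w, ← sum_add_distrib]
    exact sum_congr rfl fun x _ => degree_eq K w x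
  rw [h1]
  ring

lemma dd_transport {G H : SimpleGraph V} {w : V} {σ : Equiv.Perm V} (hw : σ w = w)
    (h : Agree σ G H (univ.erase w)) {x : V} (hx : x ≠ w) : dd G w x = dd H w (σ x) := by
  unfold dd
  refine card_bij' (fun y _ => σ y) (fun y _ => σ⁻¹ y) ?_ ?_ ?_ ?_
  · intro y hy
    rw [mem_filter, mem_erase] at hy ⊢
    refine ⟨⟨fun e => hy.1.1 (σ.injective (e.trans hw.symm)), mem_univ _⟩, ?_⟩
    exact (h x (mem_erase.2 ⟨hx, mem_univ _⟩) y (mem_erase.2 hy.1)).1 hy.2
  · intro y hy
    rw [mem_filter, mem_erase] at hy ⊢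
    have h1 : σ⁻¹ y ≠ w := by
      intro e
      apply hy.1.1
      rw [← hw, ← e]
      simp
    refine ⟨⟨h1, mem_univ _⟩, ?_⟩
    rw [h x (mem_erase.2 ⟨hx, mem_univ _⟩) (σ⁻¹ y) (mem_erase.2 ⟨h1, mem_univ _⟩)]
    simpa using hy.2
  · intro y _
    simp
  · intro y _
    simp

lemma sum_transport {G H : SimpleGraph V} {w : V} {σ : Equiv.Perm V} (hw : σ w = w)
    (h : Agree σ G H (univ.erase w)) :
    ∑ x ∈ univ.erase w, dd G w x = ∑ x ∈ univ.erase w, dd H w x := by
  refine sum_bij' (fun y _ => σ y) (fun y _ => σ⁻¹ y) ?_ ?_ ?_ ?_ ?_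
  · intro y hy
    rw [mem_erase] at hy ⊢
    exact ⟨fun e => hy.1 (σ.injective (e.trans hw.symm)), mem_univ _⟩
  · intro y hy
    rw [mem_erase] at hy ⊢
    refine ⟨fun e => hy.1 ?_, mem_univ _⟩
    rw [← hw, ← e]
    simp
  · intro y _
    simp
  · intro y _
    simp
  · intro y hy
    exact dd_transport hw h (mem_erase.1 hy).1

lemma degrees_eq (G H : SimpleGraph V) (hn : 3 ≤ Fintype.card V)
    (hdeck : ∀ w, ∃ σ : Equiv.Perm V, σ w = w ∧ Agree σ G H (univ.erase w)) (w : V) :
    G.degree w = H.degree w := by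
  have key : ∀ w, ∑ x ∈ univ.erase w, dd G w x = ∑ x ∈ univ.erase w, dd H w x := by
    intro w
    obtain ⟨σ, h1, h2⟩ := hdeck w
    exact sum_transport h1 h2
  have tot : ∀ K : SimpleGraph V, Fintype.card V * ∑ x, K.degree x =
      ∑ w, ∑ x ∈ univ.erase w, dd K w x + 2 * ∑ w, K.degree w := by
    intro K
    have h1 : ∑ _w : V, ∑ x, K.degree x =
        ∑ w, (∑ x ∈ univ.erase w, dd K w x + 2 * K.degree w) :=
      sum_congr rfl fun w _ => sum_degree K w
    rw [sum_const, card_univ, smul_eq_mul, sum_add_distrib, ← mul_sum] at h1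
    exact h1
  have hG := tot G
  have hH := tot H
  rw [sum_congr rfl fun w _ => key w] at hG
  have hS : ∑ x, G.degree x = ∑ x, H.degree x := by
    obtain ⟨m, hm⟩ := Nat.exists_eq_add_of_le hn
    rw [hm] at hG hH
    nlinarith [hG, hH]
  have h1 := sum_degree G w
  have h2 := sum_degree H w
  rw [key w] at h1
  omega

end Hypo_

open Hypo_ in
/-- SEP-10 (the separator is recognisable). -/
theorem sep_hypo (A : Finset V) (G H : SimpleGraph V) (hn : 3 ≤ Fintype.card V)
    (hgap : ∀ u ∈ A, ∀ v, v ∉ A → G.degree u + 2 ≤ G.degree v ∨ G.degree v + 2 ≤ G.degree u)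
    (hdeck : ∀ w, ∃ σ : Equiv.Perm V, σ w = w ∧ Agree σ G H (univ.erase w)) : Hypo A G H := by
  intro w hwA
  obtain ⟨σ, hw, h⟩ := hdeck w
  refine ⟨σ, hw, ?_, h⟩
  have hclose : ∀ x, x ≠ w → G.degree x ≤ G.degree (σ x) + 1 ∧
      G.degree (σ x) ≤ G.degree x + 1 := by
    intro x hx
    have h1 := degree_eq G w x
    have h2 := degree_eq H w (σ x)
    have h3 := dd_transport hw h hx
    have h4 := degrees_eq G H hn hdeck (σ x)
    split_ifs at h1 h2 <;> omega
  have hiff : ∀ x, x ∈ A ↔ σ x ∈ A := by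
    intro x
    by_cases hx : x = w
    · subst hx
      rw [hw]
    · obtain ⟨h1, h2⟩ := hclose x hx
      constructor
      · intro hA
        by_contra hc
        rcases hgap x hA (σ x) hc with h3 | h3 <;> omega
      · intro hA
        by_contra hc
        rcases hgap (σ x) hA x hc with h3 | h3 <;> omega
  ext x
  rw [mem_im_iff_inv, hiff (σ⁻¹ x)]
  simp

end Pool.Agent.Sep
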