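import Mathlib
import Pool.Agent.Sep.Assembly
import Pool.Agent.Sep.AbstractIndex

/-!
Assembly of the theorem on separators, index version.
-/

set_option autoImplicit false

namespace Pool.Agent.Sep

open Finset Classical

universe u

variable {V : Type u} [Fintype V]

open AsmAux

/-- **Theorem B**, index version, for two graphs on the same vertex set. -/
theorem recon_perm_index (A : Finset V) (G H : SimpleGraph V) (q : ℕ) (hb : 3 ≤ (Aᶜ : Finset V).card)
    (hc3 : 3 ≤ (comps G Aᶜ).card) (hq : q * (q - 1) < 2 * (comps G Aᶜ).card)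
    (hcard : 2 * (II A G G).card * 2 ^ q < 3 ^ q *
      ((II A G G).filter (fun π : Equiv.Perm V => xv A (G.comap π) Aᶜ = xv A G Aᶜ)).card)
    (hyp : Hypo A G H) :
    ∃ g : Equiv.Perm V, ∀ x y, G.Adj x y ↔ H.Adj (g x) (g y) := by
  have hc : 2 ≤ (comps G Aᶜ).card := by omega
  have hcH : 2 ≤ (comps H Aᶜ).card :=
    sep_two A G H hyp (fun g hg s hs => sep_kelly A G H hyp g hg s hs)
      (fun K L σ Y => sep_comps_im K L σ Y) (fun K Y => sep_card_comps K Y) hb hc
  have hone : (1 : Equiv.Perm V) ∈ II A G G := by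
    rw [II, mem_filter]
    exact ⟨mem_univ _, fun _ _ => rfl, fun _ _ _ _ => Iff.rfl⟩
  have hprod0 : ∀ (K : SimpleGraph V) (π : Equiv.Perm V),
      ∏ τ, (xv A (K.comap π) Aᶜ τ).choose ((0 : Ty A → ℕ) τ) = 1 := by
    intro K π
    apply prod_eq_one
    intro τ _
    exact Nat.choose_zero_right _
  have hII : (II A G G).card = (II A G H).card := by
    have h1 := count_eq A G H hyp 0 (by simp only [Pi.zero_apply, sum_const_zero]; omega)
      (by simp only [Pi.zero_apply, sum_const_zero]; omega)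
    simp only [hprod0, sum_const, smul_eq_mul, mul_one] at h1
    exact h1
  have hsumxv : ∀ (K : SimpleGraph V) (π : Equiv.Perm V), π ∈ II A G K →
      ∑ τ, xv A (K.comap π) Aᶜ τ = (comps K Aᶜ).card := by
    intro K π hπ
    rw [sum_xv, comps_comap A Aᶜ K π (fix_of_mem_II hπ) (fun v hv => mem_compl.mp hv)]
  have hcc : (comps G Aᶜ).card = (comps H Aᶜ).card := by
    have h1 : ∀ τ : Ty A, ∑ π ∈ II A G G, xv A (G.comap π) Aᶜ τ =
        ∑ π ∈ II A G H, xv A (H.comap π) Aᶜ τ := by
      intro τ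
      have hs : ∑ τ', (Pi.single τ 1 : Ty A → ℕ) τ' = 1 := by
        rw [sum_pi_single']; simp
      have h2 := count_eq A G H hyp (Pi.single τ 1) (by rw [hs]; omega) (by rw [hs]; omega)
      have h3 : ∀ (K : SimpleGraph V) (π : Equiv.Perm V),
          ∏ τ', (xv A (K.comap π) Aᶜ τ').choose ((Pi.single τ 1 : Ty A → ℕ) τ') =
            xv A (K.comap π) Aᶜ τ := by
        intro K π
        rw [prod_eq_single τ]
        · rw [Pi.single_eq_same, Nat.choose_one_right]
        · intro τ' _ hne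
          rw [Pi.single_eq_of_ne hne, Nat.choose_zero_right]
        · intro h; exact absurd (mem_univ _) h
      simp only [h3] at h2
      exact h2
    have h4 : ∑ π ∈ II A G G, ∑ τ, xv A (G.comap π) Aᶜ τ =
        ∑ π ∈ II A G H, ∑ τ, xv A (H.comap π) Aᶜ τ := by
      rw [sum_comm, sum_comm (s := II A G H)]
      exact sum_congr rfl (fun τ _ => h1 τ)
    rw [sum_congr rfl (fun π hπ => hsumxv G π hπ), sum_congr rfl (fun π hπ => hsumxv H π hπ),
      sum_const, sum_const, ← hII, smul_eq_mul, smul_eq_mul] at h4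
    exact Nat.eq_of_mul_eq_mul_left (card_pos.mpr ⟨1, hone⟩) h4
  have htw := fun (K : SimpleGraph V) (π : Equiv.Perm V) (hπ : π ∈ II A G K) =>
    sep_twist A K π (fix_of_mem_II hπ)
  obtain ⟨π, hπ, h⟩ := sep_abstract_index (T := Ty A) (ι := Equiv.Perm V) (κ := Equiv.Perm V)
    (comps G Aᶜ).card q (II A G G) (II A G H)
    (fun π => xv A (G.comap π) Aᶜ) (fun π => xv A (H.comap π) Aᶜ) hc3 hq
    (fun π hπ => hsumxv G π hπ) (fun π hπ => by rw [hcc]; exact hsumxv H π hπ)
    (fun N hN => count_eq A G H hyp N hN (by rw [← hcc]; exact hN))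
    (fun π hπ π' hπ' => by rw [(htw G π hπ).2.1, (htw G π' hπ').2.1])
    (fun π hπ π' hπ' => by rw [(htw H π hπ).2.1, (htw H π' hπ').2.1])
    (fun π hπ π' hπ' => by rw [(htw G π hπ).2.2, (htw G π' hπ').2.2])
    (fun π hπ π' hπ' => by rw [(htw H π hπ).2.2, (htw H π' hπ').2.2])
    1 hone hcard
  apply sep_glue A G H π hπ
  rw [h]
  rfl

end Pool.Agent.Sep
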