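import Mathlib
import Pool.Agent.Sep.AssemblyIndex
import Pool.Agent.Sep.Core
import Pool.Agent.Sep.Natural

/-!
The core theorem in relative form, index version: the automorphisms of `G[A]` that extend to
automorphisms of `G` are taken into account.
-/

set_option autoImplicit false

namespace Pool.Agent.Sep

open Finset Classical

universe u

variable {V W : Type u} [Fintype V] [Fintype W]

omit [Fintype W] in
/-- extendable automorphisms do not change the vector of types -/
lemma card_ext_le (G : SimpleGraph V) (A : Finset V) :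
    Nat.card {φ : G.induce (A : Set V) ≃g G.induce (A : Set V) //
      ∃ α : G ≃g G, ∀ a : (A : Set V), ((φ a : (A : Set V)) : V) = α a} ≤
    ((II A G G).filter (fun π : Equiv.Perm V => xv A (G.comap π) Aᶜ = xv A G Aᶜ)).card := by
  have hfin : Fintype.card {π : Equiv.Perm V // π ∈ (II A G G).filter
      (fun π : Equiv.Perm V => xv A (G.comap π) Aᶜ = xv A G Aᶜ)} =
      ((II A G G).filter (fun π : Equiv.Perm V => xv A (G.comap π) Aᶜ = xv A G Aᶜ)).card :=
    Fintype.card_coe _
  rw [← hfin, ← Nat.card_eq_fintype_card]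
  refine Nat.card_le_card_of_injective (fun φ => ⟨((cardII_equiv A G).symm φ.1).1, ?_⟩) ?_
  · have hmem := ((cardII_equiv A G).symm φ.1).2
    set π := ((cardII_equiv A G).symm φ.1).1 with hπ
    rw [mem_filter]
    refine ⟨hmem, ?_⟩
    obtain ⟨α, hα⟩ := φ.2
    have hoff : ∀ v, v ∉ A → π v = v := (mem_filter.mp hmem).2.1
    have hon : ∀ v ∈ A, π v = α v := by
      intro v hv
      rw [← hα ⟨v, hv⟩, hπ]
      exact Equiv.Perm.ofSubtype_apply_of_mem φ.1.toEquiv (show v ∈ (A : Set V) from hv)
    have him : im α.toEquiv A = A := by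
      apply eq_of_subset_of_card_le
      · intro x hx
        obtain ⟨y, hy, rfl⟩ := mem_im.mp hx
        have h1 := hα ⟨y, hy⟩
        change α y ∈ A
        rw [← h1]
        exact (φ.1 ⟨y, hy⟩).2
      · rw [card_im]
    have h1 := xv_transport A G G α.toEquiv 1 π π Aᶜ disjoint_compl_right him
      (fun x _ y _ => (α.map_adj_iff (v := x) (w := y)).symm) hon hoff (fun v _ => rfl)
      (by rw [mul_one])
    rw [im_compl, him] at h1
    rw [h1]
    rfl
  · intro φ ψ h
    have h1 := congrArg Subtype.val h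
    dsimp only at h1
    have h2 : (cardII_equiv A G).symm φ.1 = (cardII_equiv A G).symm ψ.1 := Subtype.ext h1
    exact Subtype.ext ((cardII_equiv A G).symm.injective h2)

omit [Fintype W] in
/-- **Core theorem, index version**. Let `f` be a bijection of the vertices of `G` and `H` and `A` a
set of vertices of `G`, such that for every `w` outside `A` there is an isomorphism
`G - w → H - f(w)` mapping `A` to `f(A)`. Let `a` be the number of automorphisms of `G[A]` and `r`
the number of those that extend to automorphisms of `G`. If `2^(q+1) a < 3^q r` and `G - A` has more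
than `q (q - 1) / 2` components and at least three components, then `G` and `H` are isomorphic. -/
theorem core_index (G : SimpleGraph V) (H : SimpleGraph W) (f : V ≃ W) (A : Set V) (q : ℕ)
    (hdeck : ∀ w ∉ A, ∃ ψ : {x : V // x ≠ w} ≃ {y : W // y ≠ f w},
      (∀ x y, G.Adj x.1 y.1 ↔ H.Adj (ψ x).1 (ψ y).1) ∧
      ∀ x, x.1 ∈ A ↔ f.symm (ψ x).1 ∈ A)
    (hcard : 2 ^ (q + 1) * Nat.card (G.induce A ≃g G.induce A) < 3 ^ q *
      Nat.card {φ : G.induce A ≃g G.induce A // ∃ α : G ≃g G, ∀ a : A, ((φ a : A) : V) = α a})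
    (hc3 : 3 ≤ Nat.card (G.induce Aᶜ).ConnectedComponent)
    (hq : q * (q - 1) < 2 * Nat.card (G.induce Aᶜ).ConnectedComponent) :
    ∃ g : V ≃ W, ∀ x y, G.Adj x y ↔ H.Adj (g x) (g y) := by
  obtain ⟨A, rfl⟩ : ∃ B : Finset V, (B : Set V) = A := ⟨A.toFinset, by simp⟩
  have hcc : (comps G Aᶜ).card = Nat.card (G.induce ((A : Set V)ᶜ)).ConnectedComponent := by
    rw [sep_card_comps, coe_compl]
  rw [← hcc] at hq hc3
  rw [← (sep_card_II A G).1] at hcard
  have hb : 3 ≤ (Aᶜ : Finset V).card := hc3.trans card_image_le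
  have hyp : Hypo A G (H.comap f) := by
    intro w hw
    obtain ⟨ψ, hψ, hA⟩ := hdeck w (by exact_mod_cast hw)
    obtain ⟨σ, h1, h2⟩ := core_exists_perm f w ψ
    have h3 : ∀ x, x ∈ A ↔ σ x ∈ A := by
      intro x
      by_cases hx : x = w
      · subst hx; rw [h1]
      · have h4 := hA ⟨x, hx⟩
        rw [← h2 x hx, Equiv.symm_apply_apply] at h4
        exact_mod_cast h4
    refine ⟨σ, h1, ?_, ?_⟩
    · ext x
      obtain ⟨y, rfl⟩ := σ.surjective x
      rw [apply_mem_im]
      exact h3 y
    · intro x hx y hy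
      rw [SimpleGraph.comap_adj, h2 x (ne_of_mem_erase hx), h2 y (ne_of_mem_erase hy)]
      exact hψ ⟨x, _⟩ ⟨y, _⟩
  have hcard' : 2 * (II A G G).card * 2 ^ q < 3 ^ q *
      ((II A G G).filter (fun π : Equiv.Perm V => xv A (G.comap π) Aᶜ = xv A G Aᶜ)).card := by
    have h1 : 2 ^ (q + 1) * (II A G G).card = 2 * (II A G G).card * 2 ^ q := by
      rw [pow_succ]; ring
    rw [← h1]
    exact lt_of_lt_of_le hcard (Nat.mul_le_mul_left _ (card_ext_le G A))
  obtain ⟨g, hg⟩ := recon_perm_index A G (H.comap f) q hb hc3 hq hcard' hyp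
  exact ⟨g.trans f, fun x y => by rw [hg, SimpleGraph.comap_adj]; rfl⟩

end Pool.Agent.Sep
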