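import Mathlib
import Pool.Agent.Sep.Defs

/-!
SEP-11: choosing a threshold.
-/

set_option autoImplicit false

namespace Pool.Agent.Sep

open Finset Classical

universe u

variable {V : Type u} [Fintype V]

lemma thr_comp_eq (K : SimpleGraph V) (Y : Finset V) (v x : V) (h : x ∈ comp K Y v) :
    comp K Y v = comp K Y x := by
  have h2 : (res K Y).Reachable v x := (mem_filter.mp h).2
  ext u
  simp only [comp, mem_filter]
  constructor
  · rintro ⟨hu, hvu⟩
    exact ⟨hu, h2.symm.trans hvu⟩
  · rintro ⟨hu, hxu⟩
    exact ⟨hu, h2.trans hxu⟩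

omit [Fintype V] in
lemma thr_reach (G : SimpleGraph V) (X Y : Finset V) (P : V → Prop) (v u : V) (hv : P v)
    (hstep : ∀ a b, P a → (res G Y).Adj a b → P b ∧ (res G X).Adj a b)
    (h : (res G Y).Reachable v u) : P u ∧ (res G X).Reachable v u := by
  rw [SimpleGraph.reachable_iff_reflTransGen] at h
  induction h with
  | refl => exact ⟨hv, SimpleGraph.Reachable.refl _⟩
  | tail _ hab ih =>
    obtain ⟨h1, h2⟩ := hstep _ _ ih.1 hab
    exact ⟨h1, ih.2.trans h2.reachable⟩

lemma thr_subset (G : SimpleGraph V) (S A : Finset V) (hAS : A ⊆ S) :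
    comps G Sᶜ ⊆ comps G Aᶜ ∪
      ((S \ A).biUnion (fun s => (G.neighborFinset s).image (comp G Sᶜ))) := by
  intro D hD
  obtain ⟨v, hv, rfl⟩ := mem_image.mp hD
  rw [mem_union]
  by_cases hbad : ∃ s ∈ S \ A, ∃ x ∈ comp G Sᶜ v, G.Adj s x
  · right
    obtain ⟨s, hs, x, hx, hsx⟩ := hbad
    refine mem_biUnion.mpr ⟨s, hs, mem_image.mpr ⟨x, ?_, ?_⟩⟩
    · rw [SimpleGraph.mem_neighborFinset]; exact hsx
    · exact (thr_comp_eq G Sᶜ v x hx).symm
  · left
    have hvA : v ∈ Aᶜ := by
      rw [mem_compl] at hv ⊢
      exact fun h => hv (hAS h)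
    refine mem_image.mpr ⟨v, hvA, ?_⟩
    ext u
    simp only [comp, mem_filter]
    constructor
    · rintro ⟨_, h⟩
      have key := thr_reach G Sᶜ Aᶜ (fun u => u ∈ comp G Sᶜ v) v u
        (mem_filter.mpr ⟨hv, SimpleGraph.Reachable.refl _⟩) ?_ h
      · exact ⟨(mem_filter.mp key.1).1, key.2⟩
      · intro a b ha hab
        have haS := (mem_filter.mp ha).1
        have hbS : b ∈ Sᶜ := by
          rw [mem_compl]
          intro hbS
          refine hbad ⟨b, ?_, a, ha, hab.1.symm⟩
          rw [mem_sdiff]
          exact ⟨hbS, mem_compl.mp hab.2.2⟩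
        have hab' : (res G Sᶜ).Adj a b := ⟨hab.1, haS, hbS⟩
        exact ⟨mem_filter.mpr ⟨hbS, (mem_filter.mp ha).2.trans hab'.reachable⟩, hab'⟩
    · rintro ⟨hu, h⟩
      have hle : res G Sᶜ ≤ res G Aᶜ := by
        intro a b hab
        refine ⟨hab.1, ?_, ?_⟩
        · have := mem_compl.mp hab.2.1
          exact mem_compl.mpr (fun h => this (hAS h))
        · have := mem_compl.mp hab.2.2
          exact mem_compl.mpr (fun h => this (hAS h))
      refine ⟨?_, h.mono hle⟩
      rw [mem_compl] at hu ⊢
      exact fun h => hu (hAS h)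

/-- SEP-11 (choosing a threshold). -/
theorem sep_threshold (G : SimpleGraph V) (S : Finset V) (d : ℕ)
    (hd : ∀ v, v ∉ S → ((G.neighborFinset v) \ S).card ≤ d)
    (_hcc : ∀ (K : SimpleGraph V) (Y : Finset V),
      (comps K Y).card = Nat.card (K.induce (Y : Set V)).ConnectedComponent) :
    ∃ A ⊆ S, (∀ u ∈ A, ∀ v, v ∉ A → G.degree v + 2 ≤ G.degree u) ∧
      (comps G Sᶜ).card ≤ (comps G Aᶜ).card + S.card * (2 * S.card + d) := by
  -- a threshold
  obtain ⟨M, hM, hMS⟩ : ∃ M ∈ Finset.Icc (S.card + d + 1) (2 * S.card + d + 1),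
      M ∉ S.image (fun s => G.degree s) := by
    by_contra hcon
    push Not at hcon
    have h1 : (Finset.Icc (S.card + d + 1) (2 * S.card + d + 1)).card ≤
        (S.image (fun s => G.degree s)).card := card_le_card (fun M hM => hcon M hM)
    have h2 : (S.image (fun s => G.degree s)).card ≤ S.card := card_image_le
    rw [Nat.card_Icc] at h1
    omega
  rw [mem_Icc] at hM
  have hout : ∀ v, v ∉ S → G.degree v ≤ S.card + d := by
    intro v hv
    have h1 : (G.neighborFinset v).card ≤ ((G.neighborFinset v) \ S).card + S.card :=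
      card_le_card_sdiff_add_card
    have h2 := hd v hv
    rw [← SimpleGraph.card_neighborFinset_eq_degree]
    omega
  have hne : ∀ v, G.degree v ≠ M := by
    intro v hvM
    by_cases hv : v ∈ S
    · exact hMS (mem_image.mpr ⟨v, hv, hvM⟩)
    · have := hout v hv
      omega
  refine ⟨univ.filter (fun u => M < G.degree u), ?_, ?_, ?_⟩
  · intro u hu
    by_contra hcon
    have h1 := hout u hcon
    have h2 := (mem_filter.mp hu).2
    omega
  · intro u hu v hv
    have h2 := (mem_filter.mp hu).2
    have h3 : ¬ M < G.degree v := fun h => hv (mem_filter.mpr ⟨mem_univ _, h⟩)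
    have h4 := hne v
    omega
  · set A := univ.filter (fun u => M < G.degree u) with hA
    have hAS : A ⊆ S := by
      intro u hu
      by_contra hcon
      have h1 := hout u hcon
      have h2 := (mem_filter.mp hu).2
      omega
    have h1 := card_le_card (thr_subset G S A hAS)
    have h2 : ((S \ A).biUnion (fun s => (G.neighborFinset s).image (comp G Sᶜ))).card ≤
        S.card * (2 * S.card + d) := by
      calc ((S \ A).biUnion (fun s => (G.neighborFinset s).image (comp G Sᶜ))).card
          ≤ ∑ s ∈ S \ A, ((G.neighborFinset s).image (comp G Sᶜ)).card := card_biUnion_le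
        _ ≤ ∑ s ∈ S \ A, (2 * S.card + d) := by
            refine sum_le_sum fun s hs => ?_
            refine card_image_le.trans ?_
            rw [SimpleGraph.card_neighborFinset_eq_degree]
            have h3 : s ∉ A := (mem_sdiff.mp hs).2
            have h4 : ¬ M < G.degree s := fun h => h3 (mem_filter.mpr ⟨mem_univ _, h⟩)
            have h5 := hne s
            omega
        _ = (S \ A).card * (2 * S.card + d) := by rw [sum_const, smul_eq_mul]
        _ ≤ S.card * (2 * S.card + d) :=
            Nat.mul_le_mul_right _ (card_le_card sdiff_subset)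
    refine h1.trans ((card_union_le _ _).trans ?_)
    omega

end Pool.Agent.Sep
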