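import Mathlib
import Pool.Agent.Recon.Defs
import Pool.Agent.Recon.Poset
import Pool.Agent.Sep.Defs
import Pool.Agent.Sep.Assembly
import Pool.Agent.Sep.Hypo
import Pool.Agent.Sep.Threshold
import Pool.Agent.Sep.CardII

/-!
The reconstruction theorems for graphs with a separator leaving many components.
-/

set_option autoImplicit false

namespace Pool.Agent.Sep

open Finset Classical

universe u

variable {V W : Type u} [Fintype V] [Fintype W]

namespace FinAux

omit [Fintype W] in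
/-- An isomorphism of vertex-deleted subgraphs as a permutation. -/
lemma exists_perm (f : V ≃ W) (v : V) (ψ : {x : V // x ≠ v} ≃ {y : W // y ≠ f v}) :
    ∃ σ : Equiv.Perm V, σ v = v ∧ ∀ x (hx : x ≠ v), f (σ x) = (ψ ⟨x, hx⟩).1 := by
  let g : V → V := fun x => if hx : x = v then v else f.symm (ψ ⟨x, hx⟩).1
  have hgv : g v = v := by simp [g]
  have hgn : ∀ x (hx : x ≠ v), f (g x) = (ψ ⟨x, hx⟩).1 := by
    intro x hx
    simp only [g, hx, dif_neg, not_false_eq_true, Equiv.apply_symm_apply]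
  have hne : ∀ x, x ≠ v → g x ≠ v := by
    intro x hx h
    have h1 := hgn x hx
    rw [h] at h1
    exact (ψ ⟨x, hx⟩).2 h1.symm
  have hinj : Function.Injective g := by
    intro x y hxy
    by_cases hx : x = v <;> by_cases hy : y = v
    · rw [hx, hy]
    · exact absurd (by rw [← hxy, hx, hgv]) (hne y hy)
    · exact absurd (by rw [hxy, hy, hgv]) (hne x hx)
    · have h1 := hgn x hx
      rw [hxy, hgn y hy] at h1
      have h2 := ψ.injective (Subtype.ext h1)
      exact (congrArg Subtype.val h2).symm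
  exact ⟨Equiv.ofBijective g (Finite.injective_iff_bijective.mp hinj), hgv, hgn⟩

omit [Fintype W] in
lemma deck_perm (G : SimpleGraph V) (H : SimpleGraph W) (f : V ≃ W)
    (hdeck : ∀ v : V, ∃ ψ : {x : V // x ≠ v} ≃ {y : W // y ≠ f v},
      ∀ x y, G.Adj x.1 y.1 ↔ H.Adj (ψ x).1 (ψ y).1) :
    ∀ w, ∃ σ : Equiv.Perm V, σ w = w ∧ Agree σ G (H.comap f) (univ.erase w) := by
  intro w
  obtain ⟨ψ, hψ⟩ := hdeck w
  obtain ⟨σ, h1, h2⟩ := exists_perm f w ψ
  refine ⟨σ, h1, ?_⟩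
  intro x hx y hy
  rw [SimpleGraph.comap_adj, h2 x (ne_of_mem_erase hx), h2 y (ne_of_mem_erase hy)]
  exact hψ ⟨x, _⟩ ⟨y, _⟩

lemma two_le_q {q a : ℕ} (ha : 1 ≤ a) (h : 2 ^ (q + 1) * a < 3 ^ q) : 2 ≤ q := by
  by_contra hq
  have : q = 0 ∨ q = 1 := by omega
  rcases this with rfl | rfl
  · norm_num at h; omega
  · norm_num at h; omega

end FinAux

open FinAux

/-- Theorem B, graph level. -/
theorem recon_gap (G : SimpleGraph V) (H : SimpleGraph W) (f : V ≃ W)
    (hdeck : ∀ v : V, ∃ ψ : {x : V // x ≠ v} ≃ {y : W // y ≠ f v},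
      ∀ x y, G.Adj x.1 y.1 ↔ H.Adj (ψ x).1 (ψ y).1)
    (A : Finset V) (q : ℕ)
    (hgap : ∀ u ∈ A, ∀ v, v ∉ A → G.degree u + 2 ≤ G.degree v ∨ G.degree v + 2 ≤ G.degree u)
    (hb : 3 ≤ (Aᶜ : Finset V).card) (hq : q * (q - 1) < 2 * (comps G Aᶜ).card)
    (hcard : 2 ^ (q + 1) * (II A G G).card < 3 ^ q) :
    ∃ g : V ≃ W, ∀ x y, G.Adj x y ↔ H.Adj (g x) (g y) := by
  have hone : (1 : Equiv.Perm V) ∈ II A G G := by
    rw [II, mem_filter]
    exact ⟨mem_univ _, fun _ _ => rfl, fun _ _ _ _ => Iff.rfl⟩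
  have hq2 : 2 ≤ q := two_le_q (card_pos.mpr ⟨1, hone⟩) hcard
  have hn : 3 ≤ Fintype.card V := hb.trans (card_le_univ _)
  have hc : 2 ≤ (comps G Aᶜ).card := by
    have h1 : 2 * 1 ≤ q * (q - 1) := Nat.mul_le_mul hq2 (by omega)
    omega
  obtain ⟨g, hg⟩ := recon_perm A G (H.comap f) q hb hc hq (by rw [pow_succ] at hcard; linarith)
    (sep_hypo A G (H.comap f) hn hgap (deck_perm G H f hdeck))
  exact ⟨g.trans f, fun x y => by rw [hg, SimpleGraph.comap_adj]; rfl⟩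

/-- Theorem C, graph level. -/
theorem recon_threshold (G : SimpleGraph V) (H : SimpleGraph W) (f : V ≃ W)
    (hn : 3 ≤ Fintype.card V)
    (hdeck : ∀ v : V, ∃ ψ : {x : V // x ≠ v} ≃ {y : W // y ≠ f v},
      ∀ x y, G.Adj x.1 y.1 ↔ H.Adj (ψ x).1 (ψ y).1)
    (S : Finset V) (d q : ℕ) (hd : ∀ v, v ∉ S → ((G.neighborFinset v) \ S).card ≤ d)
    (hcard : 2 ^ (q + 1) * S.card.factorial < 3 ^ q)
    (hq : q * (q - 1) + 2 * S.card * (2 * S.card + d) < 2 * (comps G Sᶜ).card) :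
    ∃ g : V ≃ W, ∀ x y, G.Adj x y ↔ H.Adj (g x) (g y) := by
  obtain ⟨A, hAS, hgap, hcomps⟩ := sep_threshold G S d hd (fun K Y => sep_card_comps K Y)
  have hle : (II A G G).card ≤ S.card.factorial :=
    (sep_card_II A G).2.trans (Nat.factorial_le (card_le_card hAS))
  have hcard' : 2 ^ (q + 1) * (II A G G).card < 3 ^ q :=
    lt_of_le_of_lt (Nat.mul_le_mul_left _ hle) hcard
  have hq2 : 2 ≤ q := two_le_q (Nat.factorial_pos _) hcard
  have hq' : q * (q - 1) < 2 * (comps G Aᶜ).card := by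
    have h1 : 2 * S.card * (2 * S.card + d) = 2 * (S.card * (2 * S.card + d)) := by ring
    omega
  refine recon_gap G H f hdeck A q (fun u hu v hv => Or.inr (hgap u hu v hv)) ?_ hq' hcard'
  rcases Nat.eq_zero_or_pos S.card with hS | hS
  · have hA : A = ∅ := by
      rw [card_eq_zero] at hS
      rw [hS] at hAS
      exact subset_empty.mp hAS
    rw [hA, compl_empty, card_univ]
    exact hn
  · have h1 : 2 * 1 ≤ q * (q - 1) := Nat.mul_le_mul hq2 (by omega)
    have h2 : 2 * 1 * (2 * 1 + 0) ≤ 2 * S.card * (2 * S.card + d) :=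
      Nat.mul_le_mul (by omega) (by omega)
    have h3 : (comps G Sᶜ).card ≤ (Sᶜ : Finset V).card := card_image_le
    have h4 : (Sᶜ : Finset V).card ≤ (Aᶜ : Finset V).card :=
      card_le_card (compl_subset_compl.mpr hAS)
    omega

omit [Fintype V] [Fintype W] in
lemma deck_compl (G : SimpleGraph V) (H : SimpleGraph W) (f : V ≃ W)
    (hdeck : ∀ v : V, ∃ ψ : {x : V // x ≠ v} ≃ {y : W // y ≠ f v},
      ∀ x y, G.Adj x.1 y.1 ↔ H.Adj (ψ x).1 (ψ y).1) :
    ∀ v : V, ∃ ψ : {x : V // x ≠ v} ≃ {y : W // y ≠ f v},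
      ∀ x y, Gᶜ.Adj x.1 y.1 ↔ Hᶜ.Adj (ψ x).1 (ψ y).1 := by
  intro v
  obtain ⟨ψ, hψ⟩ := hdeck v
  refine ⟨ψ, fun x y => ?_⟩
  rw [SimpleGraph.compl_adj, SimpleGraph.compl_adj, hψ]
  have : x.1 ≠ y.1 ↔ (ψ x).1 ≠ (ψ y).1 := by
    rw [not_iff_not]
    constructor
    · intro h
      rw [Subtype.ext h]
    · intro h
      exact congrArg Subtype.val (ψ.injective (Subtype.ext h))
  rw [this]

lemma degree_eq (G : SimpleGraph V) (v : V) : G.degree v = (G.neighborSet v).ncard := by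
  rw [← SimpleGraph.card_neighborSet_eq_degree, Set.ncard_eq_toFinset_card', Set.toFinset_card]

lemma card_comps_eq (G : SimpleGraph V) (A : Finset V) :
    (comps G Aᶜ).card = Nat.card (G.induce ((A : Set V)ᶜ)).ConnectedComponent := by
  rw [sep_card_comps, coe_compl]

/-- Theorem B, graph level, with sets. -/
theorem recon_gap' (G : SimpleGraph V) (H : SimpleGraph W) (f : V ≃ W)
    (hdeck : ∀ v : V, ∃ ψ : {x : V // x ≠ v} ≃ {y : W // y ≠ f v},
      ∀ x y, G.Adj x.1 y.1 ↔ H.Adj (ψ x).1 (ψ y).1)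
    (A : Set V) (q : ℕ)
    (hgap : ∀ u ∈ A, ∀ v ∉ A, (G.neighborSet u).ncard + 2 ≤ (G.neighborSet v).ncard ∨
      (G.neighborSet v).ncard + 2 ≤ (G.neighborSet u).ncard)
    (hb : 3 ≤ Aᶜ.ncard)
    (hcard : 2 ^ (q + 1) * Nat.card (G.induce A ≃g G.induce A) < 3 ^ q)
    (hq : q * (q - 1) < 2 * Nat.card (G.induce Aᶜ).ConnectedComponent) :
    ∃ g : V ≃ W, ∀ x y, G.Adj x y ↔ H.Adj (g x) (g y) := by
  obtain ⟨A, rfl⟩ : ∃ B : Finset V, (B : Set V) = A := ⟨A.toFinset, by simp⟩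
  apply recon_gap G H f hdeck A q
  · intro u hu v hv
    rw [degree_eq, degree_eq]
    exact hgap u (by exact_mod_cast hu) v (by exact_mod_cast hv)
  · rw [← coe_compl, Set.ncard_coe_finset] at hb
    exact hb
  · rw [card_comps_eq]; exact hq
  · rw [(sep_card_II A G).1]; exact hcard

/-- Theorem C, graph level, with sets. -/
theorem recon_threshold' (G : SimpleGraph V) (H : SimpleGraph W) (f : V ≃ W)
    (hn : 3 ≤ Fintype.card V)
    (hdeck : ∀ v : V, ∃ ψ : {x : V // x ≠ v} ≃ {y : W // y ≠ f v},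
      ∀ x y, G.Adj x.1 y.1 ↔ H.Adj (ψ x).1 (ψ y).1)
    (S : Set V) (d q : ℕ) (hd : ∀ v ∉ S, (G.neighborSet v \ S).ncard ≤ d)
    (hcard : 2 ^ (q + 1) * S.ncard.factorial < 3 ^ q)
    (hq : q * (q - 1) + 2 * S.ncard * (2 * S.ncard + d) <
          2 * Nat.card (G.induce Sᶜ).ConnectedComponent) :
    ∃ g : V ≃ W, ∀ x y, G.Adj x y ↔ H.Adj (g x) (g y) := by
  obtain ⟨S, rfl⟩ : ∃ B : Finset V, (B : Set V) = S := ⟨S.toFinset, by simp⟩
  rw [Set.ncard_coe_finset] at hcard hq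
  apply recon_threshold G H f hn hdeck S d q
  · intro v hv
    have h1 := hd v (by exact_mod_cast hv)
    have h2 : (G.neighborSet v \ (S : Set V)) = ((G.neighborFinset v \ S : Finset V) : Set V) := by
      simp
    rw [h2, Set.ncard_coe_finset] at h1
    exact h1
  · exact hcard
  · rw [card_comps_eq]; exact hq

open Pool.Agent.Recon in
/-- Passing from graphs to truncated clique lattices, for a property of a graph or its
complement. -/
theorem clique_of_graph (G K : SimpleGraph V) (hK : K = G ∨ K = Gᶜ)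
    (h : ∀ (H : SimpleGraph W) (f : V ≃ W),
      (∀ v : V, ∃ ψ : {x : V // x ≠ v} ≃ {y : W // y ≠ f v},
        ∀ x y, K.Adj x.1 y.1 ↔ H.Adj (ψ x).1 (ψ y).1) →
      ∃ g : V ≃ W, ∀ x y, K.Adj x y ↔ H.Adj (g x) (g y))
    (H : SimpleGraph W) (f : V ≃ W)
    (hcards : ∀ v : V, Nonempty (Card G v ≃o Card H (f v))) :
    Nonempty (TCL G ≃o TCL H) := by
  have hdeck : ∀ v : V, ∃ ψ : {x : V // x ≠ v} ≃ {y : W // y ≠ f v},
      ∀ x y, G.Adj x.1 y.1 ↔ H.Adj (ψ x).1 (ψ y).1 := by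
    intro v
    obtain ⟨e⟩ := hcards v
    exact exists_equiv_of_card_iso G H v (f v) e
  rcases hK with rfl | rfl
  · obtain ⟨g, hg⟩ := h H f hdeck
    exact tcl_iso_of_iso K H g hg
  · obtain ⟨g, hg⟩ := h Hᶜ f (deck_compl G H f hdeck)
    refine tcl_iso_of_iso G H g (fun x y => ?_)
    by_cases hxy : x = y
    · subst hxy
      constructor
      · intro h; exact absurd h (G.loopless.irrefl _)
      · intro h; exact absurd h (H.loopless.irrefl _)
    · have h1 := hg x y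
      rw [SimpleGraph.compl_adj, SimpleGraph.compl_adj] at h1
      have h2 : g x ≠ g y := fun h => hxy (g.injective h)
      by_contra hcon
      tauto

end Pool.Agent.Sep
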