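import Mathlib
import Pool.Agent.Sep.Final
import Pool.Agent.Sep.CoreIndex

/-!
The reconstruction theorem for graphs with a degree-separated separator, index version.
-/

set_option autoImplicit false

namespace Pool.Agent.Sep

open Finset Classical

universe u

variable {V W : Type u} [Fintype V] [Fintype W]

/-- Theorem B, index version, graph level, with sets. -/
theorem recon_gap_index (G : SimpleGraph V) (H : SimpleGraph W) (f : V ≃ W)
    (hdeck : ∀ v : V, ∃ ψ : {x : V // x ≠ v} ≃ {y : W // y ≠ f v},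
      ∀ x y, G.Adj x.1 y.1 ↔ H.Adj (ψ x).1 (ψ y).1)
    (A : Set V) (q : ℕ)
    (hgap : ∀ u ∈ A, ∀ v ∉ A, (G.neighborSet u).ncard + 2 ≤ (G.neighborSet v).ncard ∨
      (G.neighborSet v).ncard + 2 ≤ (G.neighborSet u).ncard)
    (hcard : 2 ^ (q + 1) * Nat.card (G.induce A ≃g G.induce A) < 3 ^ q *
      Nat.card {φ : G.induce A ≃g G.induce A // ∃ α : G ≃g G, ∀ a : A, ((φ a : A) : V) = α a})
    (hb : 3 ≤ Aᶜ.ncard)
    (hq : q * (q - 1) < 2 * Nat.card (G.induce Aᶜ).ConnectedComponent)
    (h3 : 3 ≤ Nat.card (G.induce Aᶜ).ConnectedComponent ∨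
      Nat.card (G.induce A ≃g G.induce A) = 1) :
    ∃ g : V ≃ W, ∀ x y, G.Adj x y ↔ H.Adj (g x) (g y) := by
  rcases h3 with h3 | h3
  · obtain ⟨A, rfl⟩ : ∃ B : Finset V, (B : Set V) = A := ⟨A.toFinset, by simp⟩
    have hcc := card_comps_eq G A
    rw [← hcc] at hq h3
    rw [← (sep_card_II A G).1] at hcard
    have hb' : 3 ≤ (Aᶜ : Finset V).card := h3.trans card_image_le
    have hn : 3 ≤ Fintype.card V := hb'.trans (card_le_univ _)
    have hyp : Hypo A G (H.comap f) := sep_hypo A G (H.comap f) hn (fun u hu v hv => by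
      rw [degree_eq, degree_eq]
      exact hgap u (by exact_mod_cast hu) v (by exact_mod_cast hv)) (FinAux.deck_perm G H f hdeck)
    have hcard' : 2 * (II A G G).card * 2 ^ q < 3 ^ q *
        ((II A G G).filter (fun π : Equiv.Perm V => xv A (G.comap π) Aᶜ = xv A G Aᶜ)).card := by
      have h1 : 2 ^ (q + 1) * (II A G G).card = 2 * (II A G G).card * 2 ^ q := by
        rw [pow_succ]; ring
      rw [← h1]
      exact lt_of_lt_of_le hcard (Nat.mul_le_mul_left _ (card_ext_le G A))
    obtain ⟨g, hg⟩ := recon_perm_index A G (H.comap f) q hb' h3 hq hcard' hyp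
    exact ⟨g.trans f, fun x y => by rw [hg, SimpleGraph.comap_adj]; rfl⟩
  · apply recon_gap' G H f hdeck A q hgap hb _ hq
    have h4 : Nat.card {φ : G.induce A ≃g G.induce A //
        ∃ α : G ≃g G, ∀ a : A, ((φ a : A) : V) = α a} ≤ Nat.card (G.induce A ≃g G.induce A) := by
      have : Finite (G.induce A ≃g G.induce A) :=
        Finite.of_injective (fun e => e.toEquiv) (fun e f hef => RelIso.toEquiv_injective hef)
      exact Nat.card_le_card_of_injective Subtype.val Subtype.val_injective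
    rw [h3] at h4 hcard ⊢
    calc 2 ^ (q + 1) * 1 < 3 ^ q * _ := hcard
      _ ≤ 3 ^ q * 1 := Nat.mul_le_mul_left _ h4
      _ = 3 ^ q := mul_one _

end Pool.Agent.Sep
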